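import Pool.Agent.LibBruck.Good

/-!
# Elementary amenable groups and the class `Adm` of semitopological semigroups
-/

open Filter Topology Set

namespace Pool.Agent.Bruck

open Pool.Agent.LRFix

universe u v

/-- Elementary amenable groups: the smallest class of groups (in a universe) containing finite and
abelian groups and closed under extensions, directed unions, subgroups, quotients, isomorphism. -/
inductive EA : ∀ (G : Type u) [Group G], Prop
  | finite (G : Type u) [Group G] (h : Finite G) : EA G
  | comm (G : Type u) [Group G] (h : ∀ a b : G, a * b = b * a) : EA G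
  | ext (G : Type u) [Group G] (N : Subgroup G) [N.Normal] (hN : EA N) (hQ : EA (G ⧸ N)) : EA G
  | union (G : Type u) [Group G] (ι : Type u) [Nonempty ι] (H : ι → Subgroup G)
      (hdir : Directed (· ≤ ·) H) (hcov : ∀ g : G, ∃ i, g ∈ H i) (hH : ∀ i, EA (H i)) : EA G
  | subgroup (G : Type u) [Group G] (H : Subgroup G) (hG : EA G) : EA H
  | quotient (G : Type u) [Group G] (N : Subgroup G) [N.Normal] (hG : EA G) : EA (G ⧸ N)
  | iso (G H : Type u) [Group G] [Group H] (e : G ≃* H) (hG : EA G) : EA H

/-- The inductive class of semitopological semigroups. -/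
inductive Adm : ∀ (S : Type u) [Semigroup S] [TopologicalSpace S], Prop
  /-- commutative semigroups -/
  | comm (S : Type u) [Semigroup S] [TopologicalSpace S] (h : ∀ a b : S, a * b = b * a) : Adm S
  /-- elementary amenable groups, with any topology -/
  | ea (G : Type u) [Group G] [TopologicalSpace G] (h : EA G) : Adm G
  /-- compact Hausdorff left reversible semigroups -/
  | compact (S : Type u) [Semigroup S] [TopologicalSpace S] (hc : CompactSpace S) (ht : T2Space S)
      (hl : ∀ a : S, Continuous fun s => a * s)
      (hrev : ∀ a b : S,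
        (closure (range fun s => a * s) ∩ closure (range fun s => b * s)).Nonempty) : Adm S
  /-- dense continuous homomorphic images -/
  | image (S S' : Type u) [Semigroup S] [TopologicalSpace S] [Semigroup S'] [TopologicalSpace S']
      (hS : Adm S) (φ : S → S') (hmul : ∀ a b, φ (a * b) = φ a * φ b) (hcont : Continuous φ)
      (hdense : DenseRange φ) : Adm S'
  /-- directed unions, dense in `S` -/
  | union (S : Type u) [Semigroup S] [TopologicalSpace S] (ι : Type u) [Nonempty ι]
      (T : ι → Subsemigroup S) (hT : ∀ i, Adm (T i)) (hdir : Directed (· ≤ ·) T)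
      (hdense : Dense (⋃ i, (T i : Set S))) : Adm S
  /-- extensions -/
  | ext (S Q : Type u) [Semigroup S] [TopologicalSpace S] [Semigroup Q] [TopologicalSpace Q]
      (T : Subsemigroup S) (hT : Adm T) (hQ : Adm Q)
      (hnorm : ∀ s : S, ∀ t ∈ T, ∃ u ∈ T, ∃ u' ∈ T, t * s * u = s * u')
      (φ : S → Q) (hmul : ∀ a b, φ (a * b) = φ a * φ b) (hquot : IsQuotientMap φ)
      (hker : ∀ s s', φ s = φ s' → ∃ t ∈ T, ∃ t' ∈ T, s * t = s' * t') : Adm S
  /-- subsemigroups `T` with `s T ∩ T ≠ ∅` for all `s` -/
  | absorb (S : Type u) [Semigroup S] [TopologicalSpace S] (T : Subsemigroup S) (hT : Adm T)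
      (habs : ∀ s : S, ∃ t ∈ T, s * t ∈ T) : Adm S

variable {E : Type v} [NormedAddCommGroup E] [NormedSpace ℝ E]

theorem good_finite [CompleteSpace E] (G : Type u) [Group G] (h : Finite G)
    [τ : TopologicalSpace G] : Good E G := by
  apply Good.of_bot τ
  let _ : TopologicalSpace G := ⊥
  have _ : DiscreteTopology G := ⟨rfl⟩
  exact good_compact (fun a => continuous_of_discreteTopology) fun a b =>
    ⟨1, subset_closure ⟨a⁻¹, mul_inv_cancel a⟩, subset_closure ⟨b⁻¹, mul_inv_cancel b⟩⟩

theorem good_of_ea [CompleteSpace E] (hE : WFPP E) : ∀ (G : Type u) [Group G], EA G →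
    ∀ (H : Type u) [Group H] [TopologicalSpace H] (φ : H →* G), Function.Injective φ →
      Good E H := by
  intro G _ hG
  induction hG with
  | finite G h =>
    intro H _ _ φ hφ
    exact good_finite H (Finite.of_injective φ hφ)
  | comm G h =>
    intro H _ _ φ hφ
    exact good_comm hE fun a b => hφ (by rw [map_mul, map_mul, h])
  | ext G N hN hQ ihN ihQ =>
    intro H _ _ φ hφ
    let M : Subgroup H := N.comap φ
    let ψ : M →* N := (φ.comp M.subtype).codRestrict N fun x => x.2
    have hψ : Function.Injective ψ := by
      intro x y hxy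
      have h1 : φ x = φ y := congrArg Subtype.val hxy
      exact Subtype.ext (hφ h1)
    have h1 : Good E M := ihN M ψ hψ
    let χ : H ⧸ M →* G ⧸ N := QuotientGroup.map M N φ le_rfl
    have hχ : Function.Injective χ := by
      rw [injective_iff_map_eq_one]
      intro x hx
      obtain ⟨y, rfl⟩ := QuotientGroup.mk_surjective x
      have h2 : ((φ y : G) : G ⧸ N) = 1 := hx
      rw [QuotientGroup.eq_one_iff] at h2
      exact (QuotientGroup.eq_one_iff _).2 h2
    let τ : TopologicalSpace (H ⧸ M) := TopologicalSpace.coinduced (QuotientGroup.mk' M) inferInstance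
    have h2 : Good E (H ⧸ M) := ihQ (H ⧸ M) χ hχ
    refine Good.ext M.toSubmonoid.toSubsemigroup h1 ?_ h2 (QuotientGroup.mk' M)
      (fun a b => map_mul _ a b) ⟨⟨rfl⟩, QuotientGroup.mk'_surjective M⟩ ?_
    · intro s t ht
      refine ⟨1, M.one_mem, s⁻¹ * t * s, ?_, ?_⟩
      · have h3 := (inferInstance : M.Normal).conj_mem t ht s⁻¹
        rwa [inv_inv] at h3
      · group
    · intro s s' hss
      refine ⟨s⁻¹ * s', ?_, 1, M.one_mem, by group⟩
      exact QuotientGroup.eq.1 hss
  | union G ι K hdir hcov hK ih =>
    intro H _ _ φ hφ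
    refine Good.union hE (fun i => ((K i).comap φ).toSubmonoid.toSubsemigroup) ?_ ?_ ?_
    · intro i
      let M : Subgroup H := (K i).comap φ
      let ψ : M →* K i := (φ.comp M.subtype).codRestrict (K i) fun x => x.2
      have hψ : Function.Injective ψ := by
        intro x y hxy
        have h1 : φ x = φ y := congrArg Subtype.val hxy
        exact Subtype.ext (hφ h1)
      exact ih i M ψ hψ
    · intro i j
      obtain ⟨k, hik, hjk⟩ := hdir i j
      exact ⟨k, fun x hx => hik hx, fun x hx => hjk hx⟩
    · have h1 : (⋃ i, (((K i).comap φ).toSubmonoid.toSubsemigroup : Set H)) = univ := by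
        apply eq_univ_of_forall
        intro x
        obtain ⟨i, hi⟩ := hcov (φ x)
        exact mem_iUnion.2 ⟨i, hi⟩
      rw [h1]
      exact dense_univ
  | subgroup G K hG ih =>
    intro H _ _ φ hφ
    exact ih H (K.subtype.comp φ) (K.subtype_injective.comp hφ)
  | quotient G N hG ih =>
    intro H _ _ φ hφ
    -- the preimage in `G` of the range of `φ`
    let R : Subgroup G := φ.range.comap (QuotientGroup.mk' N)
    let e : H ≃* φ.range := MonoidHom.ofInjective hφ
    let p : R →* φ.range := ((QuotientGroup.mk' N).comp R.subtype).codRestrict _ fun x => x.2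
    let π : R →* H := e.symm.toMonoidHom.comp p
    let τ : TopologicalSpace R := TopologicalSpace.induced π inferInstance
    have h1 : Good E R := ih R R.subtype R.subtype_injective
    refine h1.image π (fun a b => map_mul _ a b) continuous_induced_dom ?_
    apply Function.Surjective.denseRange
    intro h
    obtain ⟨g, hg⟩ := QuotientGroup.mk'_surjective N (φ h)
    have hgR : g ∈ R := ⟨h, hg.symm⟩
    refine ⟨⟨g, hgR⟩, ?_⟩
    change e.symm (p ⟨g, hgR⟩) = h
    rw [MulEquiv.symm_apply_eq]
    exact Subtype.ext hg
  | iso G K e hG ih =>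
    intro H _ _ φ hφ
    exact ih H (e.symm.toMonoidHom.comp φ) (e.symm.injective.comp hφ)

theorem good_of_adm [CompleteSpace E] (hE : WFPP E) : ∀ (S : Type u) [Semigroup S]
    [TopologicalSpace S], Adm S → Good E S := by
  intro S _ _ hS
  induction hS with
  | comm S h => exact good_comm hE h
  | ea G h => exact good_of_ea hE G h G (MonoidHom.id G) Function.injective_id
  | compact S hc ht hl hrev => exact good_compact hl hrev
  | image S S' _ φ hmul hcont hdense ih => exact ih.image φ hmul hcont hdense
  | union S ι T _ hdir hdense ih => exact Good.union hE T ih hdir hdense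
  | ext S Q T _ _ hnorm φ hmul hquot hker ihT ihQ => exact Good.ext T ihT hnorm ihQ φ hmul hquot hker
  | absorb S T _ habs ih => exact Good.absorb T ih habs

end Pool.Agent.Bruck
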