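import Pool.Agent.LibBruck.Seq

/-!
# Directed families of nonexpansive retracts
-/

open Filter Topology Set

namespace Pool.Agent.Bruck

open Pool.Agent.LRFix

set_option linter.unusedSectionVars false

variable {E : Type*} [NormedAddCommGroup E] [NormedSpace ℝ E]

/-- Existence of minimal closed convex invariant sets for a family of maps. -/
lemma exists_min_family {K : Set E} (hK : WeaklyCompact K) (hne : K.Nonempty)
    (hconv : Convex ℝ K) (𝒯 : Set (E → E)) (hinv : ∀ T ∈ 𝒯, ∀ x ∈ K, T x ∈ K) :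
    ∃ M ⊆ K, M.Nonempty ∧ IsClosed M ∧ Convex ℝ M ∧ (∀ T ∈ 𝒯, ∀ x ∈ M, T x ∈ M) ∧
      ∀ C ⊆ M, C.Nonempty → IsClosed C → Convex ℝ C → (∀ T ∈ 𝒯, ∀ x ∈ C, T x ∈ C) → C = M := by
  have := KW.compactSpace hK
  let F : Set (Set E) := {C | C ⊆ K ∧ C.Nonempty ∧ IsClosed C ∧ Convex ℝ C ∧
    ∀ T ∈ 𝒯, ∀ x ∈ C, T x ∈ C}
  have hKF : K ∈ F := ⟨Subset.rfl, hne, hK.isClosed, hconv, hinv⟩
  obtain ⟨M, hMK, hM⟩ := zorn_superset_nonempty F (by
    intro c hcF hchain hcne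
    refine ⟨⋂₀ c, ⟨?_, ?_, ?_, ?_, ?_⟩, fun s hs => sInter_subset_of_mem hs⟩
    · obtain ⟨C, hC⟩ := hcne
      exact (sInter_subset_of_mem hC).trans (hcF hC).1
    · have : Nonempty c := hcne.to_subtype
      have h1 : (⋂ C : c, {x : KW K | x.val ∈ (C : Set E)}).Nonempty := by
        apply IsCompact.nonempty_iInter_of_directed_nonempty_isCompact_isClosed
        · intro A B
          rcases hchain.total A.2 B.2 with h | h
          · exact ⟨A, Subset.rfl, fun x hx => h hx⟩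
          · exact ⟨B, fun x hx => h hx, Subset.rfl⟩
        · intro C
          obtain ⟨x, hx⟩ := (hcF C.2).2.1
          exact ⟨KW.mk x ((hcF C.2).1 hx), hx⟩
        · intro C
          exact (KW.isClosed_of_convex (hcF C.2).2.2.1 (hcF C.2).2.2.2.1).isCompact
        · intro C
          exact KW.isClosed_of_convex (hcF C.2).2.2.1 (hcF C.2).2.2.2.1
      obtain ⟨x, hx⟩ := h1
      refine ⟨x.val, fun C hC => ?_⟩
      exact mem_iInter.1 hx ⟨C, hC⟩
    · exact isClosed_sInter fun C hC => (hcF hC).2.2.1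
    · exact convex_sInter fun C hC => (hcF hC).2.2.2.1
    · intro T hT x hx C hC
      exact (hcF hC).2.2.2.2 T hT x (hx C hC)) K hKF
  refine ⟨M, hMK, hM.prop.2.1, hM.prop.2.2.1, hM.prop.2.2.2.1, hM.prop.2.2.2.2, ?_⟩
  intro C hC h1 h2 h3 h4
  exact hM.eq_of_subset ⟨hC.trans hMK, h1, h2, h3, h4⟩ hC

section

variable {K : Set E} {ι : Type*} {F : ι → Set E} {r : ι → E → E}

/-- The smallest closed convex subset of `M` containing `x` and invariant under `r j`, `j ∈ J`. -/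
def hullInv (r : ι → E → E) (M : Set E) (J : Set ι) (x : E) : Set E :=
  ⋂₀ {C | C ⊆ M ∧ x ∈ C ∧ IsClosed C ∧ Convex ℝ C ∧ ∀ j ∈ J, ∀ u ∈ C, r j u ∈ C}

variable {M : Set E}

lemma mem_hullInv (J : Set ι) (x : E) : x ∈ hullInv r M J x := fun _ hC => hC.2.1

lemma hullInv_closed (J : Set ι) (x : E) : IsClosed (hullInv r M J x) :=
  isClosed_sInter fun _ hC => hC.2.2.1

lemma hullInv_convex (J : Set ι) (x : E) : Convex ℝ (hullInv r M J x) :=
  convex_sInter fun _ hC => hC.2.2.2.1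

lemma hullInv_inv (J : Set ι) (x : E) {j : ι} (hj : j ∈ J) {u : E} (hu : u ∈ hullInv r M J x) :
    r j u ∈ hullInv r M J x := fun C hC => hC.2.2.2.2 j hj u (hu C hC)

lemma hullInv_mono {J J' : Set ι} (h : J ⊆ J') (x : E) :
    hullInv r M J x ⊆ hullInv r M J' x := by
  intro u hu C hC
  exact hu C ⟨hC.1, hC.2.1, hC.2.2.1, hC.2.2.2.1, fun j hj => hC.2.2.2.2 j (h hj)⟩

lemma hullInv_subset (hMc : IsClosed M) (hMconv : Convex ℝ M) (hMinv : ∀ i, ∀ x ∈ M, r i x ∈ M)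
    (J : Set ι) {x : E} (hx : x ∈ M) : hullInv r M J x ⊆ M := by
  intro u hu
  exact hu M ⟨Subset.rfl, hx, hMc, hMconv, fun j _ => hMinv j⟩

lemma exists_hullInv [Nonempty ι] (hMc : IsClosed M) (hMconv : Convex ℝ M)
    (hMinv : ∀ i, ∀ x ∈ M, r i x ∈ M)
    (hMmin : ∀ C ⊆ M, C.Nonempty → IsClosed C → Convex ℝ C → (∀ T ∈ range r, ∀ x ∈ C, T x ∈ C) →
      C = M) {x y : E} (hx : x ∈ M) (hy : y ∈ M) :
    ∃ J : Set ι, J.Countable ∧ y ∈ hullInv r M J x := by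
  let U : Set E := {u | ∃ J : Set ι, J.Countable ∧ u ∈ hullInv r M J x}
  have hUM : U ⊆ M := by
    rintro u ⟨J, -, hu⟩
    exact hullInv_subset hMc hMconv hMinv J hx hu
  have hU : U = M := by
    apply hMmin U hUM ⟨x, ∅, countable_empty, mem_hullInv ∅ x⟩
    · rw [← isSeqClosed_iff_isClosed]
      intro u p hu hup
      choose J hJ hJu using hu
      refine ⟨⋃ n, J n, countable_iUnion hJ, ?_⟩
      exact (hullInv_closed _ x).mem_of_tendsto hup
        (Eventually.of_forall fun n => hullInv_mono (subset_iUnion J n) x (hJu n))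
    · rintro u ⟨J, hJ, hu⟩ v ⟨J', hJ', hv⟩ a b ha hb hab
      exact ⟨J ∪ J', hJ.union hJ', hullInv_convex _ x (hullInv_mono subset_union_left x hu)
        (hullInv_mono subset_union_right x hv) ha hb hab⟩
    · rintro _ ⟨i, rfl⟩ u ⟨J, hJ, hu⟩
      exact ⟨insert i J, hJ.insert i, hullInv_inv _ x (mem_insert i J)
        (hullInv_mono (subset_insert i J) x hu)⟩
  have : y ∈ U := by rw [hU]; exact hy
  exact this

lemma convex_ball_inter (M : Set E) (hM : Convex ℝ M) (z : E) (c : ℝ) :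
    Convex ℝ {u ∈ M | ‖u - z‖ ≤ c} := by
  have h1 : {u ∈ M | ‖u - z‖ ≤ c} = M ∩ Metric.closedBall z c := by
    ext u
    simp [Metric.mem_closedBall, dist_eq_norm]
  rw [h1]
  exact hM.inter (convex_closedBall z c)

lemma hullInv_dist (hr : ∀ i, Retr K (F i) (r i)) (hMK : M ⊆ K) (hMc : IsClosed M)
    (hMconv : Convex ℝ M) (hMinv : ∀ i, ∀ x ∈ M, r i x ∈ M) {J : Set ι} {x y : E} (hx : x ∈ M)
    (hy : y ∈ hullInv r M J x) {z : E} (hz : z ∈ K) (hzF : ∀ j ∈ J, z ∈ F j) :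
    ‖y - z‖ ≤ ‖x - z‖ := by
  have := hy {u ∈ M | ‖u - z‖ ≤ ‖x - z‖} ⟨fun u hu => hu.1, ⟨hx, le_rfl⟩, ?_,
    convex_ball_inter M hMconv z _, ?_⟩
  · exact this.2
  · have h1 : {u ∈ M | ‖u - z‖ ≤ ‖x - z‖} = M ∩ {u | ‖u - z‖ ≤ ‖x - z‖} := rfl
    rw [h1]
    exact hMc.inter (isClosed_le (by fun_prop) continuous_const)
  · rintro j hj u ⟨huM, hu⟩
    refine ⟨hMinv j u huM, ?_⟩
    have h2 : r j z = z := (hr j).fix z (hzF j hj)
    have h3 := (hr j).ne u (hMK huM) z hz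
    rw [h2] at h3
    exact h3.trans hu

/-- A nonempty weakly compact convex set invariant under retractions onto the members of a
downward directed family of retracts meets their intersection. -/
theorem exists_common_directed [CompleteSpace E] (hE : WFPP E) [Nonempty ι]
    (hr : ∀ i, Retr K (F i) (r i)) (hdir : ∀ i j, ∃ k, F k ⊆ F i ∧ F k ⊆ F j) {C : Set E}
    (hCK : C ⊆ K) (hCw : WeaklyCompact C) (hCne : C.Nonempty) (hCconv : Convex ℝ C)
    (hinv : ∀ i, ∀ x ∈ C, r i x ∈ C) : ∃ q ∈ C, ∀ i, q ∈ F i := by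
  classical
  obtain ⟨M, hMC, ⟨x, hx⟩, hMc, hMconv, hMinv', hMmin⟩ := exists_min_family hCw hCne hCconv
    (range r) (by rintro _ ⟨i, rfl⟩; exact hinv i)
  have hMinv : ∀ i, ∀ x ∈ M, r i x ∈ M := fun i => hMinv' _ ⟨i, rfl⟩
  have hMK : M ⊆ K := hMC.trans hCK
  have hMw : WeaklyCompact M := hCw.mono hMC hMc hMconv
  suffices hsub : ∀ y ∈ M, x = y by
    refine ⟨x, hMC hx, fun i => ?_⟩
    rw [hsub _ (hMinv i x hx)]
    exact (hr i).mem x (hMK hx)
  intro y hy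
  by_contra hxy
  -- equidistance
  have hequi : ∀ u v : M, ∃ e : ℕ → ι, ∀ z ∈ K, (∀ n, z ∈ F (e n)) →
      ‖(u : E) - z‖ = ‖(v : E) - z‖ := by
    intro u v
    obtain ⟨J, hJ, hJu⟩ := exists_hullInv hMc hMconv hMinv hMmin u.2 v.2
    obtain ⟨J', hJ', hJv⟩ := exists_hullInv hMc hMconv hMinv hMmin v.2 u.2
    obtain ⟨i₀⟩ := ‹Nonempty ι›
    obtain ⟨e, he⟩ := ((hJ.union hJ').insert i₀).exists_eq_range (insert_nonempty _ _)
    refine ⟨e, fun z hz hzF => ?_⟩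
    have h1 : ∀ j ∈ insert i₀ (J ∪ J'), z ∈ F j := by
      intro j hj
      rw [he] at hj
      obtain ⟨n, rfl⟩ := hj
      exact hzF n
    refine le_antisymm ?_ ?_
    · exact hullInv_dist hr hMK hMc hMconv hMinv v.2 hJv hz
        (fun j hj => h1 j (mem_insert_of_mem _ (Or.inr hj)))
    · exact hullInv_dist hr hMK hMc hMconv hMinv u.2 hJu hz
        (fun j hj => h1 j (mem_insert_of_mem _ (Or.inl hj)))
  choose e he using hequi
  choose k hk1 hk2 using hdir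
  obtain ⟨i₀⟩ := ‹Nonempty ι›
  let op : (Bool ⊕ (ℕ ⊕ ℚ)) → (ι × M) → (ι × M) → (ι × M) := fun i a b =>
    match i with
    | Sum.inl true => (k a.1 b.1, ⟨r a.1 b.2, hMinv _ _ b.2.2⟩)
    | Sum.inl false => (a.1, ⟨y, hy⟩)
    | Sum.inr (Sum.inl n) => (e a.2 b.2 n, a.2)
    | Sum.inr (Sum.inr q) => (a.1, ⟨(max 0 (min (q : ℝ) 1)) • (a.2 : E) +
        (1 - max 0 (min (q : ℝ) 1)) • (b.2 : E), hMconv a.2.2 b.2.2 (le_max_left _ _)
          (by
            have : max 0 (min (q : ℝ) 1) ≤ 1 := max_le zero_le_one (min_le_right _ _)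
            linarith) (by ring)⟩)
  obtain ⟨D, hDc, hD0, hD⟩ := exists_countable_closed op (i₀, (⟨x, hx⟩ : M))
  let D' : Set E := (fun a : ι × M => (a.2 : E)) '' D
  have hD'M : D' ⊆ M := by
    rintro _ ⟨a, -, rfl⟩
    exact a.2.2
  set K₀ : Set E := closure D' with hK₀
  have hK₀M : K₀ ⊆ M := closure_minimal hD'M hMc
  have hK₀conv : Convex ℝ K₀ := by
    apply convex_closure_of_rat
    rintro q _ ⟨a, ha, rfl⟩ _ ⟨b, hb, rfl⟩
    exact ⟨_, hD (Sum.inr (Sum.inr q)) a ha b hb, rfl⟩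
  have hK₀w : WeaklyCompact K₀ := hMw.mono hK₀M isClosed_closure hK₀conv
  have hxD' : x ∈ D' := ⟨_, hD0, rfl⟩
  have hyD' : y ∈ D' := ⟨_, hD (Sum.inl false) _ hD0 _ hD0, rfl⟩
  have hK₀ne : K₀.Nonempty := ⟨x, subset_closure hxD'⟩
  -- the index set
  let J : Set ι := Prod.fst '' D
  have hJc : J.Countable := hDc.image _
  have hJne : J.Nonempty := ⟨i₀, _, hD0, rfl⟩
  have hJk : ∀ i ∈ J, ∀ j ∈ J, k i j ∈ J := by
    rintro _ ⟨a, ha, rfl⟩ _ ⟨b, hb, rfl⟩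
    exact ⟨_, hD (Sum.inl true) a ha b hb, rfl⟩
  have hJr : ∀ j ∈ J, ∀ u ∈ K₀, r j u ∈ K₀ := by
    rintro _ ⟨a, ha, rfl⟩ u hu
    rw [hK₀, Metric.mem_closure_iff] at hu ⊢
    intro ε hε
    obtain ⟨_, ⟨b, hb, rfl⟩, hub⟩ := hu ε hε
    refine ⟨_, ⟨_, hD (Sum.inl true) a ha b hb, rfl⟩, ?_⟩
    refine lt_of_le_of_lt ?_ hub
    rw [dist_eq_norm, dist_eq_norm]
    have huM : u ∈ M := by
      apply hK₀M
      rw [hK₀, Metric.mem_closure_iff]
      exact hu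
    exact (hr a.1).ne u (hMK huM) b.2 (hMK b.2.2)
  obtain ⟨s, hs⟩ := hJc.exists_eq_range hJne
  have hsJ : ∀ n, s n ∈ J := fun n => by rw [hs]; exact mem_range_self n
  let t : ℕ → ι := fun n => Nat.rec (s 0) (fun n a => k a (s (n + 1))) n
  have htJ : ∀ n, t n ∈ J := by
    intro n
    induction n with
    | zero => exact hsJ 0
    | succ n ih => exact hJk _ ih _ (hsJ _)
  have ht1 : ∀ n, F (t (n + 1)) ⊆ F (t n) := fun n => hk1 (t n) (s (n + 1))
  have ht2 : ∀ n, F (t n) ⊆ F (s n) := by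
    intro n
    cases n with
    | zero => exact Subset.rfl
    | succ n => exact hk2 (t n) (s (n + 1))
  obtain ⟨q, hqK₀, hq⟩ := exists_common_seq hE (fun n => hr (t n)) ht1 (hK₀M.trans hMK) hK₀w
    hK₀ne hK₀conv (fun n => hJr (t n) (htJ n))
  have hqJ : ∀ j ∈ J, q ∈ F j := by
    intro j hj
    rw [hs] at hj
    obtain ⟨n, rfl⟩ := hj
    exact ht2 n (hq n)
  have hqK : q ∈ K := hMK (hK₀M hqK₀)
  have h1 : ∀ u ∈ D', ‖u - q‖ = ‖x - q‖ := by
    rintro _ ⟨a, ha, rfl⟩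
    exact he a.2 ⟨x, hx⟩ q hqK fun n => hqJ _ ⟨_, hD (Sum.inr (Sum.inl n)) a ha _ hD0, rfl⟩
  have h2 : ∀ u ∈ K₀, ‖u - q‖ = ‖x - q‖ := by
    have h3 : IsClosed {u : E | ‖u - q‖ = ‖x - q‖} :=
      isClosed_eq (by fun_prop) continuous_const
    exact closure_minimal (fun u hu => h1 u hu) h3
  have h4 := h2 q hqK₀
  rw [sub_self, norm_zero] at h4
  have h5 := h2 y (subset_closure hyD')
  rw [← h4] at h5
  apply hxy
  have h6 : x - q = 0 := norm_eq_zero.1 h4.symm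
  have h7 : y - q = 0 := norm_eq_zero.1 h5
  rw [sub_eq_zero] at h6 h7
  rw [h6, h7]

end

end Pool.Agent.Bruck
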