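import Pool.Agent.LibBruck.Directed

/-!
# The fixed point property for semigroups: permanence properties
-/

open Filter Topology Set

namespace Pool.Agent.Bruck

open Pool.Agent.LRFix

set_option linter.unusedSectionVars false

variable {E : Type*} [NormedAddCommGroup E] [NormedSpace ℝ E]

/-- `f` is a separately continuous nonexpansive action of `S` on `K`. -/
structure Action {S : Type*} [Semigroup S] [TopologicalSpace S] (K : Set E) (f : S → E → E) :
    Prop where
  ne : ∀ s, NE K (f s)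
  mul : ∀ s t, ∀ x ∈ K, f (s * t) x = f s (f t x)
  cont : ∀ x ∈ K, Continuous fun s => f s x

/-- The weak fixed point property for the semigroup `S`. -/
def Good (E : Type*) [NormedAddCommGroup E] [NormedSpace ℝ E] (S : Type*) [Semigroup S]
    [TopologicalSpace S] : Prop :=
  ∀ K : Set E, WeaklyCompact K → K.Nonempty → Convex ℝ K → ∀ f : S → E → E, Action K f →
    ∃ x ∈ K, ∀ s, f s x = x

variable {S : Type*} [Semigroup S] [TopologicalSpace S]

lemma Action.mono {K C : Set E} {f : S → E → E} (hf : Action K f) (hC : C ⊆ K)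
    (hinv : ∀ s, ∀ x ∈ C, f s x ∈ C) : Action C f :=
  ⟨fun s => (hf.ne s).mono hC (hinv s), fun s t x hx => hf.mul s t x (hC hx),
    fun x hx => hf.cont x (hC hx)⟩

/-- The common fixed point set is a retract. -/
theorem Good.retr (hS : Good E S) {K : Set E} (hK : WeaklyCompact K) (hconv : Convex ℝ K)
    {f : S → E → E} (hf : Action K f) : ∃ r, Retr K {x ∈ K | ∀ s, f s x = x} r := by
  obtain ⟨r, hr⟩ := exists_retr hK hconv (range f) (by rintro _ ⟨s, rfl⟩; exact hf.ne s) (by
    intro C hCK hCne hCc hCconv hinv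
    have hinv' : ∀ s, ∀ x ∈ C, f s x ∈ C := fun s => hinv _ ⟨s, rfl⟩
    obtain ⟨x, hx, hfx⟩ := hS C (hK.mono hCK hCc hCconv) hCne hCconv f (hf.mono hCK hinv')
    exact ⟨x, hx, by rintro _ ⟨s, rfl⟩; exact hfx s⟩)
  have h1 : {x ∈ K | ∀ T ∈ range f, T x = x} = {x ∈ K | ∀ s, f s x = x} := by
    ext x
    simp
  rw [h1] at hr
  exact ⟨r, hr⟩

/-- Passing to a semigroup with dense image. -/
theorem Good.image {S' : Type*} [Semigroup S'] [TopologicalSpace S'] (hS : Good E S)
    (φ : S → S') (hmul : ∀ a b, φ (a * b) = φ a * φ b) (hcont : Continuous φ)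
    (hdense : DenseRange φ) : Good E S' := by
  intro K hK hne hconv f hf
  obtain ⟨x, hx, hfx⟩ := hS K hK hne hconv (fun s => f (φ s))
    ⟨fun s => hf.ne _, fun s t x hx => by rw [hmul, hf.mul _ _ x hx],
      fun x hx => (hf.cont x hx).comp hcont⟩
  refine ⟨x, hx, fun s => ?_⟩
  have h1 : IsClosed {s | f s x = x} := isClosed_eq (hf.cont x hx) continuous_const
  have h2 : closure (range φ) ⊆ {s | f s x = x} := by
    apply closure_minimal _ h1
    rintro _ ⟨t, rfl⟩
    exact hfx t
  exact h2 (hdense s)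

/-- Directed unions. -/
theorem Good.union [CompleteSpace E] (hE : WFPP E) {ι : Type*} [Nonempty ι]
    (T : ι → Subsemigroup S) (hT : ∀ i, Good E (T i)) (hdir : Directed (· ≤ ·) T)
    (hdense : Dense (⋃ i, (T i : Set S))) : Good E S := by
  intro K hK hne hconv f hf
  have hact : ∀ i, Action K (fun s : T i => f s) := fun i =>
    ⟨fun s => hf.ne _, fun s t x hx => hf.mul _ _ x hx,
      fun x hx => (hf.cont x hx).comp continuous_subtype_val⟩
  choose r hr using fun i => (hT i).retr hK hconv (hact i)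
  obtain ⟨q, hqK, hq⟩ := exists_common_directed hE hr (by
    intro i j
    obtain ⟨k, hik, hjk⟩ := hdir i j
    exact ⟨k, fun x hx => ⟨hx.1, fun s => hx.2 ⟨s, hik s.2⟩⟩,
      fun x hx => ⟨hx.1, fun s => hx.2 ⟨s, hjk s.2⟩⟩⟩) Subset.rfl hK hne hconv
    (fun i => (hr i).maps)
  refine ⟨q, hqK, fun s => ?_⟩
  have h1 : IsClosed {s | f s q = q} := isClosed_eq (hf.cont q hqK) continuous_const
  have h2 : closure (⋃ i, (T i : Set S)) ⊆ {s | f s q = q} := by
    apply closure_minimal _ h1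
    intro s hs
    obtain ⟨i, hi⟩ := mem_iUnion.1 hs
    exact (hq i).2 ⟨s, hi⟩
  exact h2 (hdense s)

/-- Extensions. -/
theorem Good.ext (T : Subsemigroup S) (hT : Good E T) (hnorm : ∀ s : S, ∀ t ∈ T, ∃ u ∈ T,
    ∃ u' ∈ T, t * s * u = s * u') {Q : Type*} [Semigroup Q] [TopologicalSpace Q] (hQ : Good E Q) (φ : S → Q)
    (hmul : ∀ a b, φ (a * b) = φ a * φ b) (hquot : IsQuotientMap φ)
    (hker : ∀ s s', φ s = φ s' → ∃ t ∈ T, ∃ t' ∈ T, s * t = s' * t') : Good E S := by
  intro K hK hne hconv f hf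
  rcases isEmpty_or_nonempty S with hemp | ⟨⟨s₀⟩⟩
  · obtain ⟨x, hx⟩ := hne
    exact ⟨x, hx, fun s => hemp.elim s⟩
  have hact : Action K (fun s : T => f s) :=
    ⟨fun s => hf.ne _, fun s t x hx => hf.mul _ _ x hx,
      fun x hx => (hf.cont x hx).comp continuous_subtype_val⟩
  obtain ⟨r, hr⟩ := hT.retr hK hconv hact
  set F : Set E := {x ∈ K | ∀ s : T, f s x = x} with hF
  have hFK : F ⊆ K := fun x hx => hx.1
  have hFinv : ∀ s, ∀ x ∈ F, f s x ∈ F := by
    intro s x hx
    refine ⟨(hf.ne s).maps x hx.1, ?_⟩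
    rintro ⟨t, ht⟩
    obtain ⟨u, hu, u', hu', htt⟩ := hnorm s t ht
    have hux : f u x = x := hx.2 ⟨u, hu⟩
    have hux' : f u' x = x := hx.2 ⟨u', hu'⟩
    change f t (f s x) = f s x
    calc f t (f s x) = f (t * s * u) x := by
          rw [hf.mul (t * s) u x hx.1, hux, hf.mul t s x hx.1]
      _ = f s x := by rw [htt, hf.mul s u' x hx.1, hux']
  have hσ : ∀ q, ∃ s, φ s = q := hquot.surjective
  choose σ hσ using hσ
  have hwd : ∀ s s', φ s = φ s' → ∀ x ∈ F, f s x = f s' x := by
    intro s s' h x hx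
    obtain ⟨t, ht, t', ht', htt⟩ := hker s s' h
    calc f s x = f s (f t x) := by rw [hx.2 ⟨t, ht⟩]
      _ = f s' (f t' x) := by rw [← hf.mul s t x hx.1, htt, hf.mul s' t' x hx.1]
      _ = f s' x := by rw [hx.2 ⟨t', ht'⟩]
  have hact2 : Action K (fun q x => f (σ q) (r x)) := by
    refine ⟨fun q => (hf.ne _).comp hr.toNE, ?_, ?_⟩
    · intro q q' x hx
      have hrx : r x ∈ F := hr.mem x hx
      have h1 : f (σ (q * q')) (r x) = f (σ q * σ q') (r x) :=
        hwd _ _ (by rw [hσ, hmul, hσ, hσ]) _ hrx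
      change f (σ (q * q')) (r x) = f (σ q) (r (f (σ q') (r x)))
      rw [h1, hf.mul _ _ _ hrx.1, hr.fix _ (hFinv _ _ hrx)]
    · intro x hx
      rw [hquot.continuous_iff]
      have h1 : (fun q => f (σ q) (r x)) ∘ φ = fun s => f s (r x) := by
        funext s
        exact hwd _ _ (by rw [hσ]) _ (hr.mem x hx)
      rw [h1]
      exact hf.cont _ (hr.mem x hx).1
  obtain ⟨x, hx, hfx⟩ := hQ K hK hne hconv _ hact2
  have hrx : r x ∈ F := hr.mem x hx
  have hxF : x ∈ F := by
    rw [← hfx (φ s₀)]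
    exact hFinv _ _ hrx
  refine ⟨x, hx, fun s => ?_⟩
  have h1 : f (σ (φ s)) (r x) = x := hfx (φ s)
  rw [hr.fix x hxF] at h1
  rw [← hwd (σ (φ s)) s (by rw [hσ]) x hxF, h1]

/-- A subsemigroup `T` such that every `s` satisfies `s T ∩ T ≠ ∅`. -/
theorem Good.absorb (T : Subsemigroup S) (hT : Good E T) (habs : ∀ s : S, ∃ t ∈ T, s * t ∈ T) :
    Good E S := by
  intro K hK hne hconv f hf
  obtain ⟨x, hx, hfx⟩ := hT K hK hne hconv (fun s : T => f s)
    ⟨fun s => hf.ne _, fun s t x hx => hf.mul _ _ x hx,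
      fun x hx => (hf.cont x hx).comp continuous_subtype_val⟩
  refine ⟨x, hx, fun s => ?_⟩
  obtain ⟨t, ht, hst⟩ := habs s
  have h1 : f t x = x := hfx ⟨t, ht⟩
  have h2 : f (s * t) x = x := hfx ⟨s * t, hst⟩
  rw [hf.mul s t x hx, h1] at h2
  exact h2

/-- The topology plays no role if there is no continuity requirement. -/
theorem Good.of_bot {S : Type*} [Semigroup S] (τ : TopologicalSpace S)
    (h : @Good E _ _ S _ ⊥) : @Good E _ _ S _ τ := by
  intro K hK hne hconv f hf
  have h1 := hf.ne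
  have h2 := hf.mul
  clear hf τ
  let _ : TopologicalSpace S := ⊥
  exact h K hK hne hconv f (Action.mk h1 h2 fun x _ => continuous_bot)

/-- Finite commuting families. -/
lemma exists_common_finset (hE : WFPP E) (A : Finset (E → E)) : ∀ K : Set E, WeaklyCompact K →
    K.Nonempty → Convex ℝ K → (∀ T ∈ A, NE K T) →
    (∀ T ∈ A, ∀ T' ∈ A, ∀ x ∈ K, T (T' x) = T' (T x)) → ∃ x ∈ K, ∀ T ∈ A, T x = x := by
  classical
  induction A using Finset.induction_on with
  | empty =>
    intro K _ hne _ _ _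
    obtain ⟨x, hx⟩ := hne
    exact ⟨x, hx, by simp⟩
  | insert a A _ ih =>
    intro K hK hne hconv hA hcomm
    have haK : NE K a := hA a (Finset.mem_insert_self a A)
    obtain ⟨r, hr⟩ := exists_retr hK hconv (A : Set (E → E))
      (fun T hT => hA T (Finset.mem_insert_of_mem hT)) (by
        intro C hCK hCne hCc hCconv hinv
        exact ih C (hK.mono hCK hCc hCconv) hCne hCconv
          (fun T hT => (hA T (Finset.mem_insert_of_mem hT)).mono hCK (hinv T hT))
          (fun T hT T' hT' x hx => hcomm T (Finset.mem_insert_of_mem hT) T'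
            (Finset.mem_insert_of_mem hT') x (hCK hx)))
    obtain ⟨q, hq, haq⟩ := hE K hK hne hconv _ (haK.comp hr.toNE)
    simp only [Function.comp_apply] at haq
    have hrq := hr.mem q hq
    have hqA : ∀ T ∈ A, T q = q := by
      intro T hT
      rw [← haq, hcomm T (Finset.mem_insert_of_mem hT) a (Finset.mem_insert_self a A) _ hrq.1,
        hrq.2 T hT]
    have hrq2 : r q = q := hr.fix q ⟨hq, hqA⟩
    rw [hrq2] at haq
    refine ⟨q, hq, fun T hT => ?_⟩
    rcases Finset.mem_insert.1 hT with rfl | hT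
    · exact haq
    · exact hqA T hT

/-- Commutative semigroups. -/
theorem good_comm [CompleteSpace E] (hE : WFPP E) (hcomm : ∀ a b : S, a * b = b * a) :
    Good E S := by
  classical
  intro K hK hne hconv f hf
  have hcomm' : ∀ s t, ∀ x ∈ K, f s (f t x) = f t (f s x) := by
    intro s t x hx
    rw [← hf.mul s t x hx, hcomm, hf.mul t s x hx]
  have hretr : ∀ A : Finset S, ∃ r, Retr K {x ∈ K | ∀ T ∈ f '' (A : Set S), T x = x} r := by
    intro A
    refine exists_retr hK hconv (f '' (A : Set S)) ?_ ?_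
    · rintro _ ⟨s, _, rfl⟩
      exact hf.ne s
    · intro C hCK hCne hCc hCconv hinv
      obtain ⟨x, hx, hfx⟩ := exists_common_finset hE (A.image f) C (hK.mono hCK hCc hCconv) hCne
        hCconv (by
          intro T hT
          obtain ⟨s, hs, rfl⟩ := Finset.mem_image.1 hT
          exact (hf.ne s).mono hCK (hinv _ ⟨s, hs, rfl⟩)) (by
          intro T hT T' hT' x hx
          obtain ⟨s, _, rfl⟩ := Finset.mem_image.1 hT
          obtain ⟨t, _, rfl⟩ := Finset.mem_image.1 hT'
          exact hcomm' s t x (hCK hx))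
      refine ⟨x, hx, ?_⟩
      rintro _ ⟨s, hs, rfl⟩
      exact hfx _ (Finset.mem_image.2 ⟨s, hs, rfl⟩)
  choose r hr using hretr
  obtain ⟨q, hqK, hq⟩ := exists_common_directed hE hr (by
    intro A B
    refine ⟨A ∪ B, ?_, ?_⟩
    · rintro x ⟨hx, h⟩
      refine ⟨hx, ?_⟩
      rintro _ ⟨s, hs, rfl⟩
      exact h _ ⟨s, by simp only [Finset.coe_union]; exact Or.inl hs, rfl⟩
    · rintro x ⟨hx, h⟩
      refine ⟨hx, ?_⟩
      rintro _ ⟨s, hs, rfl⟩
      exact h _ ⟨s, by simp only [Finset.coe_union]; exact Or.inr hs, rfl⟩) Subset.rfl hK hne hconv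
    (fun A => (hr A).maps)
  exact ⟨q, hqK, fun s => (hq {s}).2 _ ⟨s, by simp, rfl⟩⟩

/-- Compact left reversible semigroups. -/
theorem good_compact [CompactSpace S] [T2Space S] (hl : ∀ a : S, Continuous fun s => a * s)
    (hrev : ∀ a b : S, (closure (range fun s => a * s) ∩ closure (range fun s => b * s)).Nonempty) :
    Good E S := by
  classical
  intro K hK hne hconv f hf
  rcases isEmpty_or_nonempty S with hemp | ⟨⟨s₀⟩⟩
  · obtain ⟨x, hx⟩ := hne
    exact ⟨x, hx, fun s => hemp.elim s⟩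
  have hrev' : ∀ a b : S, ∃ c d, a * c = b * d := by
    intro a b
    obtain ⟨x, hx1, hx2⟩ := hrev a b
    rw [(isCompact_range (hl a)).isClosed.closure_eq] at hx1
    rw [(isCompact_range (hl b)).isClosed.closure_eq] at hx2
    obtain ⟨c, hc⟩ := hx1
    obtain ⟨d, hd⟩ := hx2
    exact ⟨c, d, by simp only at hc hd; rw [hc, hd]⟩
  obtain ⟨M, hMK, ⟨x, hx⟩, hMc, hMconv, hMinv', hMmin⟩ := exists_min_family hK hne hconv
    (range f) (by rintro _ ⟨s, rfl⟩; exact (hf.ne s).maps)
  have hMinv : ∀ s, ∀ x ∈ M, f s x ∈ M := fun s => hMinv' _ ⟨s, rfl⟩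
  -- minimal compact invariant sets
  let 𝒪 : Set (Set E) := {O | O ⊆ M ∧ O.Nonempty ∧ IsCompact O ∧ ∀ s, ∀ y ∈ O, f s y ∈ O}
  have hO1 : (range fun s => f s x) ∈ 𝒪 := by
    refine ⟨?_, ⟨_, s₀, rfl⟩, isCompact_range (hf.cont x (hMK hx)), ?_⟩
    · rintro _ ⟨s, rfl⟩
      exact hMinv s x hx
    · rintro s _ ⟨t, rfl⟩
      exact ⟨s * t, hf.mul s t x (hMK hx)⟩
  obtain ⟨O, -, hO⟩ := zorn_superset_nonempty 𝒪 (by
    intro c hcF hchain hcne
    have hne' : Nonempty c := hcne.to_subtype
    refine ⟨⋂₀ c, ⟨?_, ?_, ?_, ?_⟩, fun s hs => sInter_subset_of_mem hs⟩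
    · obtain ⟨C, hC⟩ := hcne
      exact (sInter_subset_of_mem hC).trans (hcF hC).1
    · rw [sInter_eq_iInter]
      apply IsCompact.nonempty_iInter_of_directed_nonempty_isCompact_isClosed
      · intro A B
        rcases hchain.total A.2 B.2 with h | h
        · exact ⟨A, Subset.rfl, h⟩
        · exact ⟨B, h, Subset.rfl⟩
      · exact fun C => (hcF C.2).2.1
      · exact fun C => (hcF C.2).2.2.1
      · exact fun C => (hcF C.2).2.2.1.isClosed
    · obtain ⟨C, hC⟩ := hcne
      exact (hcF hC).2.2.1.of_isClosed_subset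
        (isClosed_sInter fun C hC => (hcF hC).2.2.1.isClosed) (sInter_subset_of_mem hC)
    · intro s y hy C hC
      exact (hcF hC).2.2.2 s y (hy C hC)) _ hO1
  obtain ⟨hOM, hOne, hOcomp, hOinv⟩ := hO.prop
  have hOmin : ∀ O' ⊆ O, O'.Nonempty → IsCompact O' → (∀ s, ∀ y ∈ O', f s y ∈ O') → O' = O :=
    fun O' h h1 h2 h3 => hO.eq_of_subset ⟨h.trans hOM, h1, h2, h3⟩ h
  have hcontf : ∀ s, ContinuousOn (f s) O := by
    intro s
    rw [Metric.continuousOn_iff]
    intro y hy ε hε
    refine ⟨ε, hε, fun z hz hzy => lt_of_le_of_lt ?_ hzy⟩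
    rw [dist_eq_norm, dist_eq_norm]
    exact (hf.ne s).ne z (hMK (hOM hz)) y (hMK (hOM hy))
  have hsurj : ∀ a, O ⊆ f a '' O := by
    have hO' : (⋂ a : S, f a '' O) = O := by
      apply hOmin
      · intro y hy
        obtain ⟨z, hz, rfl⟩ := mem_iInter.1 hy s₀
        exact hOinv s₀ z hz
      · have : Nonempty S := ⟨s₀⟩
        apply IsCompact.nonempty_iInter_of_directed_nonempty_isCompact_isClosed
        · intro a b
          obtain ⟨c, d, hcd⟩ := hrev' a b
          refine ⟨a * c, ?_, ?_⟩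
          · rintro _ ⟨z, hz, rfl⟩
            exact ⟨f c z, hOinv c z hz, (hf.mul a c z (hMK (hOM hz))).symm⟩
          · rintro _ ⟨z, hz, rfl⟩
            rw [hcd]
            exact ⟨f d z, hOinv d z hz, (hf.mul b d z (hMK (hOM hz))).symm⟩
        · exact fun a => hOne.image _
        · exact fun a => hOcomp.image_of_continuousOn (hcontf a)
        · exact fun a => (hOcomp.image_of_continuousOn (hcontf a)).isClosed
      · have hcl : IsClosed (⋂ a : S, f a '' O) :=
          isClosed_iInter fun a => (hOcomp.image_of_continuousOn (hcontf a)).isClosed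
        refine hOcomp.of_isClosed_subset hcl ?_
        intro y hy
        obtain ⟨z, hz, rfl⟩ := mem_iInter.1 hy s₀
        exact hOinv s₀ z hz
      · intro s y hy
        rw [mem_iInter]
        intro a
        obtain ⟨c, d, hcd⟩ := hrev' s a
        obtain ⟨z, hz, rfl⟩ := mem_iInter.1 hy c
        refine ⟨f d z, hOinv d z hz, ?_⟩
        rw [← hf.mul a d z (hMK (hOM hz)), ← hcd, hf.mul s c z (hMK (hOM hz))]
    intro a
    nth_rewrite 1 [← hO']
    exact iInter_subset _ a
  -- all points of O coincide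
  have hdist : ∀ ρ : ℝ, (∃ c ∈ M, ∀ y ∈ O, ‖c - y‖ ≤ ρ) → ∀ u ∈ O, ∀ v ∈ O, ‖u - v‖ ≤ ρ := by
    rintro ρ ⟨c, hcM, hc⟩ u hu v hv
    have h1 : {w ∈ M | ∀ y ∈ O, ‖w - y‖ ≤ ρ} = M := by
      apply hMmin
      · exact fun w hw => hw.1
      · exact ⟨c, hcM, hc⟩
      · have : {w ∈ M | ∀ y ∈ O, ‖w - y‖ ≤ ρ} = M ∩ ⋂ y ∈ O, {w | ‖w - y‖ ≤ ρ} := by
          ext w
          simp
        rw [this]
        exact hMc.inter (isClosed_biInter fun y _ => isClosed_le (by fun_prop) continuous_const)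
      · have : {w ∈ M | ∀ y ∈ O, ‖w - y‖ ≤ ρ} = M ∩ ⋂ y ∈ O, Metric.closedBall y ρ := by
          ext w
          simp [Metric.mem_closedBall, dist_eq_norm]
        rw [this]
        exact hMconv.inter (convex_iInter₂ fun y _ => convex_closedBall y ρ)
      · rintro _ ⟨s, rfl⟩ w ⟨hwM, hw⟩
        refine ⟨hMinv s w hwM, fun y hy => ?_⟩
        obtain ⟨y', hy', rfl⟩ := hsurj s hy
        exact ((hf.ne s).ne w (hMK hwM) y' (hMK (hOM hy'))).trans (hw y' hy')
    have h2 : u ∈ {w ∈ M | ∀ y ∈ O, ‖w - y‖ ≤ ρ} := by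
      rw [h1]
      exact hOM hu
    exact h2.2 v hv
  have hdiam : Metric.diam O = 0 := by
    by_contra hD
    set D := Metric.diam O with hDdef
    have hDpos : 0 < D := lt_of_le_of_ne Metric.diam_nonneg (Ne.symm hD)
    have hDd : ∀ u ∈ O, ∀ v ∈ O, ‖u - v‖ ≤ D := by
      intro u hu v hv
      rw [← dist_eq_norm]
      exact Metric.dist_le_diam_of_mem hOcomp.isBounded hu hv
    obtain ⟨t, htO, htf, htc⟩ := hOcomp.finite_cover_balls (show 0 < D / 4 by positivity)
    obtain ⟨t, rfl⟩ := htf.exists_finset_coe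
    have htne : t.Nonempty := by
      obtain ⟨y, hy⟩ := hOne
      obtain ⟨z, hz, _⟩ := mem_iUnion₂.1 (htc hy)
      exact ⟨z, hz⟩
    have hn : (0 : ℝ) < t.card := by exact_mod_cast htne.card_pos
    let c : E := ∑ z ∈ t, (1 / (t.card : ℝ)) • z
    have hcM : c ∈ M := by
      apply hMconv.sum_mem
      · intro z _
        positivity
      · rw [Finset.sum_const, nsmul_eq_mul]
        field_simp
      · intro z hz
        exact hOM (htO hz)
    have hc : ∀ y ∈ O, ‖c - y‖ ≤ D - 3 * D / (4 * t.card) := by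
      intro y hy
      obtain ⟨z₀, hz₀, hyz⟩ := mem_iUnion₂.1 (htc hy)
      rw [Metric.mem_ball, dist_eq_norm, norm_sub_rev] at hyz
      have hz₀t : z₀ ∈ t := hz₀
      have h1 : c - y = ∑ z ∈ t, (1 / (t.card : ℝ)) • (z - y) := by
        simp only [smul_sub, Finset.sum_sub_distrib, c, Finset.sum_const]
        congr 1
        rw [← Nat.cast_smul_eq_nsmul ℝ, smul_smul, mul_one_div_cancel hn.ne', one_smul]
      rw [h1]
      calc _ ≤ ∑ z ∈ t, ‖(1 / (t.card : ℝ)) • (z - y)‖ := norm_sum_le _ _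
        _ = ∑ z ∈ t, (1 / (t.card : ℝ)) * ‖z - y‖ := by
            refine Finset.sum_congr rfl fun z _ => ?_
            rw [norm_smul, Real.norm_of_nonneg (by positivity)]
        _ ≤ ∑ z ∈ t, (1 / (t.card : ℝ)) * (D - if z = z₀ then 3 * D / 4 else 0) := by
            refine Finset.sum_le_sum fun z hz => ?_
            gcongr
            split_ifs with h
            · rw [h]; linarith
            · rw [sub_zero]; exact hDd z (htO hz) y hy
        _ = D - 3 * D / (4 * t.card) := by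
            rw [← Finset.mul_sum, Finset.sum_sub_distrib, Finset.sum_const, nsmul_eq_mul,
              Finset.sum_ite_eq' t z₀, if_pos hz₀t]
            field_simp
    have h2 := hdist _ ⟨c, hcM, hc⟩
    have h3 : D ≤ D - 3 * D / (4 * t.card) := by
      apply Metric.diam_le_of_forall_dist_le
      · have h4 : 3 * D / (4 * t.card) ≤ D := by
          rw [div_le_iff₀ (by positivity)]
          have : (1 : ℝ) ≤ t.card := by exact_mod_cast htne.card_pos
          nlinarith
        linarith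
      · intro u hu v hv
        rw [dist_eq_norm]
        exact h2 u hu v hv
    have h5 : 0 < 3 * D / (4 * t.card) := by positivity
    linarith
  obtain ⟨o, ho⟩ := hOne
  refine ⟨o, hMK (hOM ho), fun s => ?_⟩
  have h6 : dist (f s o) o ≤ Metric.diam O :=
    Metric.dist_le_diam_of_mem hOcomp.isBounded (hOinv s o ho) ho
  rw [hdiam] at h6
  exact dist_le_zero.1 h6

end Pool.Agent.Bruck
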