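import Pool.Agent.LibBruck.Classes

/-!
# Subsemigroups of locally virtually nilpotent groups
-/

open Filter Topology Set
open scoped Pointwise commutatorElement

namespace Pool.Agent.Bruck

universe u

/-- Left reversibility, algebraic form. -/
def LR (S : Type u) [Mul S] : Prop := ∀ a b : S, ∃ c d : S, a * c = b * d

/-- Every subsemigroup of `G` is in the class `Adm` and left reversible. -/
def SG (G : Type u) [Group G] : Prop :=
  ∀ (S : Type u) [Semigroup S] [TopologicalSpace S] (φ : S →ₙ* G), Function.Injective φ →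
    Adm S ∧ LR S

/-- The preimage of a subgroup as a subsemigroup. -/
def pre {G : Type u} [Group G] (N : Subgroup G) {S : Type u} [Semigroup S] (φ : S →ₙ* G) :
    Subsemigroup S where
  carrier := {s | φ s ∈ N}
  mul_mem' := by
    intro a b ha hb
    change φ (a * b) ∈ N
    rw [map_mul]
    exact N.mul_mem ha hb

lemma mem_pre {G : Type u} [Group G] (N : Subgroup G) {S : Type u} [Semigroup S] (φ : S →ₙ* G)
    (s : S) : s ∈ pre N φ ↔ φ s ∈ N := Iff.rfl

/-- The induced map of the preimage. -/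
def preMap {G : Type u} [Group G] (N : Subgroup G) {S : Type u} [Semigroup S] (φ : S →ₙ* G) :
    pre N φ →ₙ* N where
  toFun s := ⟨φ s, s.2⟩
  map_mul' := by
    intro a b
    exact Subtype.ext (map_mul φ a.1 b.1)

lemma preMap_injective {G : Type u} [Group G] (N : Subgroup G) {S : Type u} [Semigroup S]
    (φ : S →ₙ* G) (hφ : Function.Injective φ) : Function.Injective (preMap N φ) := by
  intro a b hab
  have h1 : φ a = φ b := congrArg Subtype.val hab
  exact Subtype.ext (hφ h1)

theorem core {G : Type u} [Group G] (N : Subgroup G) [hN : N.Normal] (S : Type u) [Semigroup S]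
    [τ : TopologicalSpace S] (φ : S →ₙ* G) (hgrp : ∀ s, ∃ s', φ (s * s') ∈ N)
    (hT : Adm (pre N φ)) (hTLR : LR (pre N φ))
    (hQ : ∀ (Q : Subgroup (G ⧸ N)) [TopologicalSpace Q], Adm Q) : Adm S ∧ LR S := by
  have hLR : LR S := by
    intro a b
    obtain ⟨a', ha'⟩ := hgrp a
    obtain ⟨b', hb'⟩ := hgrp b
    obtain ⟨c, d, hcd⟩ := hTLR ⟨a * a', ha'⟩ ⟨b * b', hb'⟩
    have h1 : a * a' * c = b * b' * d := congrArg Subtype.val hcd
    exact ⟨a' * c, b' * d, by rw [← mul_assoc, ← mul_assoc, h1]⟩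
  refine ⟨?_, hLR⟩
  rcases isEmpty_or_nonempty S with hemp | ⟨⟨s₀⟩⟩
  · exact Adm.comm S fun a => hemp.elim a
  let ψ : S → G ⧸ N := fun s => QuotientGroup.mk' N (φ s)
  have hψmul : ∀ a b, ψ (a * b) = ψ a * ψ b := by
    intro a b
    simp only [ψ, map_mul]
  have hψinv : ∀ a, ∃ b, ψ a * ψ b = 1 := by
    intro a
    obtain ⟨b, hb⟩ := hgrp a
    refine ⟨b, ?_⟩
    rw [← hψmul]
    exact (QuotientGroup.eq_one_iff _).2 hb
  let Q : Subgroup (G ⧸ N) :=
    { carrier := range ψ
      mul_mem' := by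
        rintro _ _ ⟨a, rfl⟩ ⟨b, rfl⟩
        exact ⟨a * b, hψmul a b⟩
      one_mem' := by
        obtain ⟨b, hb⟩ := hψinv s₀
        exact ⟨s₀ * b, by rw [hψmul, hb]⟩
      inv_mem' := by
        rintro _ ⟨a, rfl⟩
        obtain ⟨b, hb⟩ := hψinv a
        exact ⟨b, (inv_eq_of_mul_eq_one_right hb).symm⟩ }
  let χ : S → Q := fun s => ⟨ψ s, s, rfl⟩
  have hχmul : ∀ a b, χ (a * b) = χ a * χ b := fun a b => Subtype.ext (hψmul a b)
  have hχsurj : Function.Surjective χ := by
    rintro ⟨_, s, rfl⟩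
    exact ⟨s, rfl⟩
  let σ : TopologicalSpace Q := TopologicalSpace.coinduced χ τ
  refine Adm.ext S Q (pre N φ) hT (hQ Q) ?_ χ hχmul ⟨⟨rfl⟩, hχsurj⟩ ?_
  · intro s t ht
    obtain ⟨a, b, hab⟩ := hLR (t * s) s
    obtain ⟨a', ha'⟩ := hgrp a
    refine ⟨a * a', ha', b * a', ?_, ?_⟩
    · have h1 : φ t * φ s * φ a = φ s * φ b := by rw [← map_mul, ← map_mul, hab, map_mul]
      have h2 : φ b = (φ s)⁻¹ * φ t * φ s * φ a := by
        rw [mul_assoc, mul_assoc, ← mul_assoc (φ t), h1]
        group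
      rw [mem_pre, map_mul, h2, mul_assoc, ← map_mul φ a a']
      refine N.mul_mem ?_ ha'
      have h3 := hN.conj_mem (φ t) ht (φ s)⁻¹
      rwa [inv_inv] at h3
    · rw [← mul_assoc, ← mul_assoc, hab]
  · intro s s' hss
    obtain ⟨a, b, hab⟩ := hLR s s'
    obtain ⟨a', ha'⟩ := hgrp a
    refine ⟨a * a', ha', b * a', ?_, ?_⟩
    · have h0 : ψ s = ψ s' := congrArg Subtype.val hss
      have h0' : (φ s')⁻¹ * φ s ∈ N := QuotientGroup.eq.1 h0.symm
      have h1 : φ s * φ a = φ s' * φ b := by rw [← map_mul, hab, map_mul]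
      have h2 : φ b = (φ s')⁻¹ * φ s * φ a := by
        rw [mul_assoc, h1]
        group
      rw [mem_pre, map_mul, h2, mul_assoc, ← map_mul φ a a']
      exact N.mul_mem h0' ha'
    · rw [← mul_assoc, ← mul_assoc, hab]

/-- Positive powers in a semigroup: `spow h k = h ^ (k + 1)`. -/
def spow {S : Type u} [Semigroup S] (h : S) : ℕ → S
  | 0 => h
  | k + 1 => spow h k * h

lemma map_spow {S : Type u} [Semigroup S] {G : Type u} [Monoid G] (φ : S →ₙ* G) (h : S) (k : ℕ) :
    φ (spow h k) = (φ h) ^ (k + 1) := by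
  induction k with
  | zero => simp [spow]
  | succ k ih => rw [spow, map_mul, ih, ← pow_succ]

theorem SG.comm (G : Type u) [Group G] (h : ∀ a b : G, a * b = b * a) : SG G := by
  intro S _ _ φ hφ
  have hc : ∀ a b : S, a * b = b * a := fun a b => hφ (by rw [map_mul, map_mul, h])
  exact ⟨Adm.comm S hc, fun a b => ⟨b, a, hc a b⟩⟩

theorem SG.subgroup {G : Type u} [Group G] (hG : SG G) (H : Subgroup G) : SG H := by
  intro S _ _ φ hφ
  let ψ : S →ₙ* G := ⟨fun s => (φ s : G), fun a b => by rw [map_mul]; rfl⟩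
  exact hG S ψ fun a b hab => hφ (Subtype.ext hab)

/-- Finite extensions. -/
theorem SG.finite_ext {G : Type u} [Group G] (N : Subgroup G) [N.Normal] (hN : SG N)
    (hfin : Finite (G ⧸ N)) : SG G := by
  intro S _ _ φ hφ
  have h1 := hN (pre N φ) (preMap N φ) (preMap_injective N φ hφ)
  refine core N S φ ?_ h1.1 h1.2 fun Q _ => Adm.ea Q (EA.finite Q inferInstance)
  intro s
  let x : G ⧸ N := QuotientGroup.mk' N (φ s)
  have hx : 0 < orderOf x := orderOf_pos x
  refine ⟨spow s (2 * orderOf x - 2), ?_⟩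
  rw [map_mul, map_spow, ← pow_succ']
  have h2 : x ^ (2 * orderOf x - 2 + 1 + 1) = 1 := by
    have h3 : 2 * orderOf x - 2 + 1 + 1 = orderOf x * 2 := by omega
    rw [h3, pow_mul, pow_orderOf_eq_one, one_pow]
  have h4 : QuotientGroup.mk' N ((φ s) ^ (2 * orderOf x - 2 + 1 + 1)) = 1 := by
    rw [map_pow]
    exact h2
  exact (QuotientGroup.eq_one_iff _).1 h4

/-- Directed unions. -/
theorem SG.union {G : Type u} [Group G] (ι : Type u) [Nonempty ι] (H : ι → Subgroup G)
    (hdir : Directed (· ≤ ·) H) (hcov : ∀ g : G, ∃ i, g ∈ H i) (hH : ∀ i, SG (H i)) : SG G := by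
  intro S _ _ φ hφ
  have h1 : ∀ i, Adm (pre (H i) φ) ∧ LR (pre (H i) φ) := fun i =>
    hH i (pre (H i) φ) (preMap (H i) φ) (preMap_injective (H i) φ hφ)
  constructor
  · refine Adm.union S ι (fun i => pre (H i) φ) (fun i => (h1 i).1) ?_ ?_
    · intro i j
      obtain ⟨k, hik, hjk⟩ := hdir i j
      exact ⟨k, fun s hs => hik hs, fun s hs => hjk hs⟩
    · have h2 : (⋃ i, (pre (H i) φ : Set S)) = univ := by
        apply eq_univ_of_forall
        intro s
        obtain ⟨i, hi⟩ := hcov (φ s)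
        exact mem_iUnion.2 ⟨i, hi⟩
      rw [h2]
      exact dense_univ
  · intro a b
    obtain ⟨i, hi⟩ := hcov (φ a)
    obtain ⟨j, hj⟩ := hcov (φ b)
    obtain ⟨k, hik, hjk⟩ := hdir i j
    obtain ⟨c, d, hcd⟩ := (h1 k).2 ⟨a, hik hi⟩ ⟨b, hjk hj⟩
    exact ⟨c, d, congrArg Subtype.val hcd⟩

/-- The subgroup generated by the commutator subgroup and one element. -/
abbrev cg {G : Type u} [Group G] (g : G) : Subgroup G := commutator G ⊔ Subgroup.zpowers g

instance cg_normal {G : Type u} [Group G] (g : G) : (cg g).Normal :=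
  Subgroup.Normal.of_commutator_le _ le_sup_left

lemma mem_cg {G : Type u} [Group G] (g x : G) (k : ℤ)
    (h : Abelianization.of x = (Abelianization.of g) ^ k) : x ∈ cg g := by
  have h1 : x * (g ^ k)⁻¹ ∈ commutator G := by
    rw [← Abelianization.ker_of, MonoidHom.mem_ker, map_mul, map_inv, map_zpow, h, mul_inv_cancel]
  have h2 : x = x * (g ^ k)⁻¹ * g ^ k := by group
  rw [h2]
  exact (cg g).mul_mem (le_sup_left (a := commutator G) h1)
    (le_sup_right (b := Subgroup.zpowers g) ⟨k, rfl⟩)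

lemma cg_comm {G : Type u} [Group G] (g : G) :
    ⁅cg g, cg g⁆ ≤ (⊤ : Subgroup G).lowerCentralSeries 2 := by
  set L : Subgroup G := (⊤ : Subgroup G).lowerCentralSeries 2 with hL
  have hcen : ∀ a ∈ commutator G, ∀ y : G, Commute (QuotientGroup.mk' L a) (QuotientGroup.mk' L y) := by
    intro a ha y
    rw [← commutatorElement_eq_one_iff_commute, ← map_commutatorElement]
    apply (QuotientGroup.eq_one_iff _).2
    exact Subgroup.commutator_mem_commutator ha (Subgroup.mem_top y)
  have hdec : ∀ x ∈ cg g, ∃ a ∈ commutator G, ∃ i : ℤ, x = a * g ^ i := by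
    intro x hx
    have h1 : x ∈ (commutator G : Set G) * (Subgroup.zpowers g : Set G) := by
      rw [← Subgroup.normal_mul]
      exact hx
    obtain ⟨a, ha, b, ⟨i, rfl⟩, rfl⟩ := h1
    exact ⟨a, ha, i, rfl⟩
  rw [Subgroup.commutator_le]
  intro x hx y hy
  obtain ⟨a, ha, i, rfl⟩ := hdec x hx
  obtain ⟨b, hb, j, rfl⟩ := hdec y hy
  apply (QuotientGroup.eq_one_iff (N := L) _).1
  change QuotientGroup.mk' L ⁅a * g ^ i, b * g ^ j⁆ = 1
  rw [map_commutatorElement, commutatorElement_eq_one_iff_commute, map_mul, map_mul]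
  have h1 : Commute (QuotientGroup.mk' L (g ^ i)) (QuotientGroup.mk' L (g ^ j)) := by
    rw [map_zpow, map_zpow]
    exact (Commute.refl _).zpow_zpow _ _
  refine Commute.mul_left ?_ ?_
  · exact Commute.mul_right (hcen a ha b) (hcen a ha _)
  · exact Commute.mul_right (hcen b hb _).symm h1

lemma cg_lcs {G : Type u} [Group G] (g : G) (k : ℕ) :
    (cg g).lowerCentralSeries (k + 1) ≤ (⊤ : Subgroup G).lowerCentralSeries (k + 2) := by
  induction k with
  | zero => exact cg_comm g
  | succ k ih => exact Subgroup.commutator_mono ih le_top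

lemma lcs_cg {G : Type u} [Group G] (g : G) (c : ℕ)
    (h : (⊤ : Subgroup G).lowerCentralSeries (c + 2) = ⊥) :
    (⊤ : Subgroup (cg g)).lowerCentralSeries (c + 1) = ⊥ := by
  have h1 : ((⊤ : Subgroup (cg g)).lowerCentralSeries (c + 1)).map (cg g).subtype = ⊥ := by
    rw [Subgroup.top_subtype_lowerCentralSeries, eq_bot_iff, ← h]
    exact cg_lcs g c
  exact (Subgroup.map_eq_bot_iff_of_injective _ (cg g).subtype_injective).1 h1

/-- Subsemigroups of nilpotent groups. -/
theorem SG.nil (c : ℕ) : ∀ (G : Type u) [Group G],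
    (⊤ : Subgroup G).lowerCentralSeries (c + 1) = ⊥ → SG G := by
  induction c with
  | zero =>
    intro G _ h
    apply SG.comm
    intro a b
    have h1 : ⁅a, b⁆ ∈ (⊤ : Subgroup G).lowerCentralSeries 1 :=
      Subgroup.commutator_mem_commutator (Subgroup.mem_top a) (Subgroup.mem_top b)
    rw [h, Subgroup.mem_bot, commutatorElement_eq_one_iff_mul_comm] at h1
    exact h1
  | succ c ih =>
    intro G _ h
    intro S _ _ φ hφ
    have hcg : ∀ g : G, SG (cg g) := fun g => ih (cg g) (lcs_cg g c h)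
    let α : S →ₙ* Abelianization G := (Abelianization.of : G →* Abelianization G).toMulHom.comp φ
    -- left reversibility
    have hLR : LR S := by
      intro a b
      have h1 := (hcg (φ (a * b)) (pre (cg (φ (a * b))) φ) (preMap _ φ)
        (preMap_injective _ φ hφ)).2
      have h2 : φ (a * b) ∈ cg (φ (a * b)) := mem_cg _ _ 1 (zpow_one _).symm
      have h3 : φ (b * a) ∈ cg (φ (a * b)) := by
        apply mem_cg _ _ 1
        rw [zpow_one, map_mul, map_mul, map_mul, map_mul, mul_comm]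
      obtain ⟨c, d, hcd⟩ := h1 ⟨a * b, h2⟩ ⟨b * a, h3⟩
      have h4 : a * b * c = b * a * d := congrArg Subtype.val hcd
      exact ⟨b * c, a * d, by rw [← mul_assoc, ← mul_assoc, h4]⟩
    refine ⟨?_, hLR⟩
    rcases isEmpty_or_nonempty S with hemp | hne
    · exact Adm.comm S fun a => hemp.elim a
    let T : S → Subsemigroup S := fun g =>
      { carrier := {s | ∃ (s' : S) (k : ℕ), α s * α s' = (α g) ^ (k + 1)}
        mul_mem' := by
          rintro s t ⟨s', k, hs⟩ ⟨t', l, ht⟩
          refine ⟨s' * t', k + l + 1, ?_⟩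
          rw [map_mul, map_mul, mul_mul_mul_comm, hs, ht, ← pow_add]
          congr 1
          omega }
    have hTmem : ∀ g s, s ∈ T g ↔ ∃ (s' : S) (k : ℕ), α s * α s' = (α g) ^ (k + 1) :=
      fun g s => Iff.rfl
    refine Adm.union S S T ?_ ?_ ?_
    · intro g
      let ψ : T g →ₙ* G := ⟨fun s => φ s.1, fun a b => map_mul φ a.1 b.1⟩
      have hψ : Function.Injective ψ := fun a b hab => Subtype.ext (hφ hab)
      have h1 := hcg (φ g) (pre (cg (φ g)) ψ) (preMap _ ψ) (preMap_injective _ ψ hψ)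
      refine (core (cg (φ g)) (T g) ψ ?_ h1.1 h1.2 ?_).1
      · rintro ⟨s, hs⟩
        obtain ⟨s', k, hk⟩ := (hTmem g s).1 hs
        have hs' : s' ∈ T g := (hTmem g s').2 ⟨s, k, by rw [mul_comm, hk]⟩
        refine ⟨⟨s', hs'⟩, ?_⟩
        apply mem_cg _ _ ((k + 1 : ℕ) : ℤ)
        rw [zpow_natCast]
        change α (s * s') = _
        rw [map_mul, hk]
        rfl
      · intro Q _
        apply Adm.comm
        intro a b
        apply Subtype.ext
        have hle : commutator G ≤ cg (φ g) := le_sup_left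
        change (a : G ⧸ cg (φ g)) * b = b * a
        obtain ⟨x, hx⟩ := QuotientGroup.mk'_surjective (cg (φ g)) (a : G ⧸ cg (φ g))
        obtain ⟨y, hy⟩ := QuotientGroup.mk'_surjective (cg (φ g)) (b : G ⧸ cg (φ g))
        rw [← hx, ← hy, ← commutatorElement_eq_one_iff_mul_comm, ← map_commutatorElement]
        apply (QuotientGroup.eq_one_iff _).2
        exact hle (Subgroup.commutator_mem_commutator (Subgroup.mem_top x) (Subgroup.mem_top y))
    · intro g g'
      refine ⟨g * g', ?_, ?_⟩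
      · intro s hs
        obtain ⟨s', k, hk⟩ := (hTmem g s).1 hs
        refine (hTmem _ s).2 ⟨s' * spow g' k, k, ?_⟩
        rw [map_mul, ← mul_assoc, hk, map_spow, map_mul, mul_pow]
      · intro s hs
        obtain ⟨s', k, hk⟩ := (hTmem g' s).1 hs
        refine (hTmem _ s).2 ⟨s' * spow g k, k, ?_⟩
        rw [map_mul, ← mul_assoc, hk, map_spow, map_mul, mul_pow, mul_comm]
    · have h2 : (⋃ i, (T i : Set S)) = univ := by
        apply eq_univ_of_forall
        intro s
        exact mem_iUnion.2 ⟨s, s, 1, by rw [pow_two]⟩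
      rw [h2]
      exact dense_univ

/-- Subsemigroups of locally virtually nilpotent groups. -/
theorem SG.locally {G : Type u} [Group G]
    (h : ∀ F : Finset G, ∃ N : Subgroup (Subgroup.closure (F : Set G)), N.Normal ∧
      Group.IsNilpotent N ∧ N.FiniteIndex) : SG G := by
  classical
  refine SG.union (Finset G) (fun F => Subgroup.closure (F : Set G)) ?_ ?_ ?_
  · intro F F'
    refine ⟨F ∪ F', Subgroup.closure_mono ?_, Subgroup.closure_mono ?_⟩
    · simp
    · simp
  · intro g
    exact ⟨{g}, Subgroup.subset_closure (by simp)⟩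
  · intro F
    obtain ⟨N, hN, hnil, hfi⟩ := h F
    have hfin : Finite (Subgroup.closure (F : Set G) ⧸ N) := N.finite_quotient_of_finiteIndex
    refine SG.finite_ext N ?_ hfin
    obtain ⟨n, hn⟩ := (Subgroup.isNilpotent_iff_lowerCentralSeries N).1 hnil
    have h2 : ((⊤ : Subgroup N).lowerCentralSeries n).map N.subtype = ⊥ := by
      rw [Subgroup.top_subtype_lowerCentralSeries, hn]
    have h3 : (⊤ : Subgroup N).lowerCentralSeries n = ⊥ :=
      (Subgroup.map_eq_bot_iff_of_injective _ N.subtype_injective).1 h2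
    apply SG.nil n N
    rw [eq_bot_iff, ← h3]
    exact Subgroup.lowerCentralSeries_antitone _ (Nat.le_succ n)

end Pool.Agent.Bruck
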