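import Pool.Agent.LibLRFix.Min
import Pool.Agent.LibLRFix.Reduce

/-!
# Nonexpansive retracts (after Bruck)
-/

open Filter Topology Set

namespace Pool.Agent.Bruck

open Pool.Agent.LRFix

set_option linter.unusedSectionVars false

variable {E : Type*} [NormedAddCommGroup E] [NormedSpace ℝ E]

/-- `f` is a nonexpansive self-map of `K`. -/
structure NE (K : Set E) (f : E → E) : Prop where
  maps : ∀ x ∈ K, f x ∈ K
  ne : ∀ x ∈ K, ∀ y ∈ K, ‖f x - f y‖ ≤ ‖x - y‖

/-- `r` is a nonexpansive retraction of `K` onto `F`. -/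
structure Retr (K F : Set E) (r : E → E) : Prop extends NE K r where
  mem : ∀ x ∈ K, r x ∈ F
  fix : ∀ x ∈ F, r x = x

lemma NE.comp {K : Set E} {f g : E → E} (hf : NE K f) (hg : NE K g) : NE K (f ∘ g) :=
  ⟨fun x hx => hf.maps _ (hg.maps x hx),
    fun x hx y hy => (hf.ne _ (hg.maps x hx) _ (hg.maps y hy)).trans (hg.ne x hx y hy)⟩

lemma NE.mono {K C : Set E} {f : E → E} (hf : NE K f) (hC : C ⊆ K) (hinv : ∀ x ∈ C, f x ∈ C) :
    NE C f :=
  ⟨hinv, fun x hx y hy => hf.ne x (hC hx) y (hC hy)⟩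

/-- Every nonexpansive self-map of a nonempty weakly compact convex set has a fixed point. -/
def WFPP (E : Type*) [NormedAddCommGroup E] [NormedSpace ℝ E] : Prop :=
  ∀ K : Set E, WeaklyCompact K → K.Nonempty → Convex ℝ K → ∀ f : E → E, NE K f →
    ∃ x ∈ K, f x = x

lemma KW.isClosed_dist {K : Set E} (c : ℝ) :
    IsClosed {p : KW K × KW K | ‖p.1.val - p.2.val‖ ≤ c} := by
  have h : {p : KW K × KW K | ‖p.1.val - p.2.val‖ ≤ c} =
      ⋂ φ : {φ : E →L[ℝ] ℝ // ‖φ‖ ≤ 1}, {p : KW K × KW K | φ.1 p.1.val - φ.1 p.2.val ≤ c} := by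
    ext ⟨x, y⟩
    simp only [mem_ofPred_eq, mem_iInter]
    constructor
    · rintro hx ⟨φ, hφ⟩
      have h1 : φ (x.val - y.val) ≤ ‖x.val - y.val‖ := by
        calc φ (x.val - y.val) ≤ ‖φ (x.val - y.val)‖ := le_abs_self _
          _ ≤ ‖φ‖ * ‖x.val - y.val‖ := φ.le_opNorm _
          _ ≤ 1 * ‖x.val - y.val‖ := by gcongr
          _ = _ := one_mul _
      rw [map_sub] at h1
      simp only
      linarith
    · intro hx
      obtain ⟨g, hg1, hg2⟩ := exists_dual_vector'' ℝ (x.val - y.val)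
      have h1 := hx ⟨g, hg1⟩
      simp only at h1
      rw [map_sub] at hg2
      have : g x.val - g y.val = ‖x.val - y.val‖ := by exact_mod_cast hg2
      linarith
  rw [h]
  refine isClosed_iInter fun φ => ?_
  exact isClosed_le (((KW.continuous_eval φ.1).comp continuous_fst).sub
    ((KW.continuous_eval φ.1).comp continuous_snd)) continuous_const

lemma isClosed_pair {K : Set E} (x y : KW K) (c : ℝ) :
    IsClosed {f : KW K → KW K | ‖(f x).val - (f y).val‖ ≤ c} := by
  have h1 : Continuous fun f : KW K → KW K => (f x, f y) :=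
    (continuous_apply x).prodMk (continuous_apply y)
  exact (KW.isClosed_dist (K := K) c).preimage h1

/-- The set of nonexpansive self-maps of `K` fixing `F` pointwise. -/
def NF (K F : Set E) : Set (KW K → KW K) :=
  {f | (∀ x y : KW K, ‖(f x).val - (f y).val‖ ≤ ‖x.val - y.val‖) ∧
    ∀ x : KW K, x.val ∈ F → f x = x}

lemma isClosed_NF (K F : Set E) : IsClosed (NF K F) := by
  have h : NF K F = (⋂ x : KW K, ⋂ y : KW K,
      {f : KW K → KW K | ‖(f x).val - (f y).val‖ ≤ ‖x.val - y.val‖}) ∩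
      ⋂ x : {x : KW K // x.val ∈ F}, {f : KW K → KW K | f x.1 = x.1} := by
    ext f
    simp only [NF, mem_ofPred_eq, mem_inter_iff, mem_iInter, Subtype.forall]
  rw [h]
  refine IsClosed.inter (isClosed_iInter fun x => isClosed_iInter fun y => ?_)
    (isClosed_iInter fun x => ?_)
  · exact isClosed_pair x y _
  · exact isClosed_eq (continuous_apply x.1) continuous_const

lemma id_mem_NF (K F : Set E) : (id : KW K → KW K) ∈ NF K F :=
  ⟨fun _ _ => le_rfl, fun _ _ => rfl⟩

lemma comp_mem_NF {K F : Set E} {f g : KW K → KW K} (hf : f ∈ NF K F) (hg : g ∈ NF K F) :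
    f ∘ g ∈ NF K F :=
  ⟨fun x y => (hf.1 _ _).trans (hg.1 x y), fun x hx => by
    simp only [Function.comp_apply]
    rw [hg.2 x hx, hf.2 x hx]⟩

/-- There is an element of `NF K F` with minimal distances. -/
lemma exists_min_NF {K F : Set E} (hK : WeaklyCompact K) :
    ∃ r ∈ NF K F, ∀ g ∈ NF K F, ∀ x y : KW K,
      ‖(r x).val - (r y).val‖ ≤ ‖(g (r x)).val - (g (r y)).val‖ := by
  have := KW.compactSpace hK
  have hcomp : IsCompact (NF K F) := (isClosed_NF K F).isCompact
  let rel : NF K F → NF K F → Prop := fun f g =>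
    ∀ x y : KW K, ‖(g.1 x).val - (g.1 y).val‖ ≤ ‖(f.1 x).val - (f.1 y).val‖
  obtain ⟨m, hm⟩ := exists_maximal_of_chains_bounded (r := rel) (by
    intro c hc
    rcases c.eq_empty_or_nonempty with rfl | hne
    · exact ⟨⟨id, id_mem_NF K F⟩, by simp⟩
    have : Nonempty c := hne.to_subtype
    let A : c → Set (KW K → KW K) := fun f => NF K F ∩ ⋂ x : KW K, ⋂ y : KW K,
      {g : KW K → KW K | ‖(g x).val - (g y).val‖ ≤ ‖(f.1.1 x).val - (f.1.1 y).val‖}
    have hAcl : ∀ f, IsClosed (A f) := fun f =>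
      (isClosed_NF K F).inter (isClosed_iInter fun x => isClosed_iInter fun y =>
        isClosed_pair x y _)
    have hmemA : ∀ (f : c) (g : KW K → KW K), g ∈ A f ↔ g ∈ NF K F ∧
        ∀ x y : KW K, ‖(g x).val - (g y).val‖ ≤ ‖(f.1.1 x).val - (f.1.1 y).val‖ := by
      intro f g
      simp only [A, mem_inter_iff, mem_iInter, mem_ofPred_eq]
    have h1 : (⋂ f : c, A f).Nonempty := by
      apply IsCompact.nonempty_iInter_of_directed_nonempty_isCompact_isClosed
      · intro f g
        by_cases hfg : (f : NF K F) = g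
        · have : f = g := Subtype.ext hfg
          subst this
          exact ⟨f, Subset.rfl, Subset.rfl⟩
        rcases hc f.2 g.2 hfg with h | h
        · refine ⟨g, ?_, Subset.rfl⟩
          intro u hu
          rw [hmemA] at hu ⊢
          exact ⟨hu.1, fun x y => (hu.2 x y).trans (h x y)⟩
        · refine ⟨f, Subset.rfl, ?_⟩
          intro u hu
          rw [hmemA] at hu ⊢
          exact ⟨hu.1, fun x y => (hu.2 x y).trans (h x y)⟩
      · intro f
        exact ⟨f.1.1, (hmemA f _).2 ⟨f.1.2, fun x y => le_rfl⟩⟩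
      · intro f
        exact (hAcl f).isCompact
      · exact hAcl
    obtain ⟨u, hu⟩ := h1
    rw [mem_iInter] at hu
    obtain ⟨f₀⟩ := this
    exact ⟨⟨u, ((hmemA f₀ u).1 (hu f₀)).1⟩, fun a ha => ((hmemA ⟨a, ha⟩ u).1 (hu ⟨a, ha⟩)).2⟩)
    (fun hab hbc x y => (hbc x y).trans (hab x y))
  refine ⟨m.1, m.2, fun g hg x y => ?_⟩
  exact hm ⟨g ∘ m.1, comp_mem_NF hg m.2⟩ (fun a b => hg.1 _ _) x y

/-- Bruck's retraction theorem for the common fixed point set of a family of maps. -/
theorem exists_retr {K : Set E} (hK : WeaklyCompact K) (hconv : Convex ℝ K)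
    (𝒯 : Set (E → E)) (h𝒯 : ∀ T ∈ 𝒯, NE K T)
    (hfix : ∀ C ⊆ K, C.Nonempty → IsClosed C → Convex ℝ C → (∀ T ∈ 𝒯, ∀ x ∈ C, T x ∈ C) →
      ∃ x ∈ C, ∀ T ∈ 𝒯, T x = x) :
    ∃ r, Retr K {x ∈ K | ∀ T ∈ 𝒯, T x = x} r := by
  classical
  have := KW.compactSpace hK
  set F : Set E := {x ∈ K | ∀ T ∈ 𝒯, T x = x} with hF
  obtain ⟨r, hr, hmin⟩ := exists_min_NF (F := F) hK
  have key : ∀ x : KW K, (r x).val ∈ F := by
    intro x
    set z := r x with hz
    -- the orbit of z
    let C : Set E := KW.val '' ((fun f : KW K → KW K => f z) '' NF K F)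
    have hC1 : IsClosed ((fun f : KW K → KW K => f z) '' NF K F) :=
      ((isClosed_NF K F).isCompact.image (continuous_apply z)).isClosed
    have hCK : C ⊆ K := by
      rintro _ ⟨u, -, rfl⟩
      exact u.mem
    have hCclosed : IsClosed C := by
      rw [← isSeqClosed_iff_isClosed]
      intro u p hu hup
      have hpK : p ∈ K := hK.isClosed.mem_of_tendsto hup (Eventually.of_forall fun n => hCK (hu n))
      have h2 : Tendsto (fun n => KW.mk (u n) (hCK (hu n))) atTop (𝓝 (KW.mk p hpK)) := by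
        rw [KW.tendsto_iff]
        intro φ
        simp only [KW.val_mk]
        exact (φ.continuous.tendsto p).comp hup
      have h3 : KW.mk p hpK ∈ ((fun f : KW K → KW K => f z) '' NF K F) := by
        refine hC1.mem_of_tendsto h2 (Eventually.of_forall fun n => ?_)
        obtain ⟨v, hv, hvu⟩ := hu n
        have : KW.mk (u n) (hCK (hu n)) = v := KW.ext (by rw [KW.val_mk, hvu])
        rw [this]
        exact hv
      exact ⟨_, h3, rfl⟩
    have hCconv : Convex ℝ C := by
      rintro _ ⟨_, ⟨f, hf, rfl⟩, rfl⟩ _ ⟨_, ⟨g, hg, rfl⟩, rfl⟩ a b ha hb hab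
      let h : KW K → KW K := fun x =>
        KW.mk (a • (f x).val + b • (g x).val) (hconv (f x).mem (g x).mem ha hb hab)
      refine ⟨_, ⟨h, ⟨?_, ?_⟩, rfl⟩, rfl⟩
      · intro x y
        simp only [h, KW.val_mk]
        have e1 : a • (f x).val + b • (g x).val - (a • (f y).val + b • (g y).val) =
            a • ((f x).val - (f y).val) + b • ((g x).val - (g y).val) := by
          rw [smul_sub, smul_sub]; abel
        rw [e1]
        calc _ ≤ ‖a • ((f x).val - (f y).val)‖ + ‖b • ((g x).val - (g y).val)‖ := norm_add_le _ _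
          _ = a * ‖(f x).val - (f y).val‖ + b * ‖(g x).val - (g y).val‖ := by
              rw [norm_smul, norm_smul, Real.norm_of_nonneg ha, Real.norm_of_nonneg hb]
          _ ≤ a * ‖x.val - y.val‖ + b * ‖x.val - y.val‖ := by
              gcongr
              · exact hf.1 x y
              · exact hg.1 x y
          _ = ‖x.val - y.val‖ := by rw [← add_mul, hab, one_mul]
      · intro x hx
        apply KW.ext
        simp only [h, KW.val_mk]
        rw [hf.2 x hx, hg.2 x hx, ← add_smul, hab, one_smul]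
    have hCne : C.Nonempty := ⟨_, ⟨_, ⟨id, id_mem_NF K F, rfl⟩, rfl⟩⟩
    have hCinv : ∀ T ∈ 𝒯, ∀ x ∈ C, T x ∈ C := by
      rintro T hT _ ⟨_, ⟨f, hf, rfl⟩, rfl⟩
      let T' : KW K → KW K := fun x => KW.mk (T x.val) ((h𝒯 T hT).maps _ x.mem)
      have hT' : T' ∈ NF K F :=
        ⟨fun x y => (h𝒯 T hT).ne _ x.mem _ y.mem, fun x hx => KW.ext (hx.2 T hT)⟩
      exact ⟨_, ⟨_, comp_mem_NF hT' hf, rfl⟩, rfl⟩
    obtain ⟨_, ⟨_, ⟨f, hf, rfl⟩, rfl⟩, hfx⟩ := hfix C hCK hCne hCclosed hCconv hCinv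
    -- y = f z ∈ F
    have hyF : (f z).val ∈ F := ⟨(f z).mem, hfx⟩
    have h4 := hmin f hf x (f z)
    rw [hr.2 (f z) hyF, hf.2 (f z) hyF, sub_self, norm_zero] at h4
    have h5 : (r x).val = (f z).val := by
      rw [← sub_eq_zero, ← norm_eq_zero]
      exact le_antisymm h4 (norm_nonneg _)
    rw [hz, h5]
    exact hyF
  refine ⟨fun x => if hx : x ∈ K then (r (KW.mk x hx)).val else x, ?_, ?_, ?_⟩
  · constructor
    · intro x hx
      simp only [hx, dif_pos]
      exact KW.mem _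
    · intro x hx y hy
      simp only [hx, hy, dif_pos]
      exact hr.1 _ _
  · intro x hx
    simp only [hx, dif_pos]
    exact key _
  · intro x hx
    have hxK : x ∈ K := hx.1
    simp only [hxK, dif_pos]
    rw [hr.2 (KW.mk x hxK) hx, KW.val_mk]

end Pool.Agent.Bruck
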