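import Pool.Agent.LibBruck.Retract

/-!
# Decreasing sequences of nonexpansive retracts
-/

open Filter Topology Set

namespace Pool.Agent.Bruck

open Pool.Agent.LRFix

set_option linter.unusedSectionVars false

variable {E : Type*} [NormedAddCommGroup E] [NormedSpace ℝ E]

/-- Composition of the first `n + 1` retractions. -/
def rho (r : ℕ → E → E) : ℕ → E → E
  | 0 => r 0
  | n + 1 => fun x => r (n + 1) (rho r n x)

section

variable {K : Set E} {F : ℕ → Set E} {r : ℕ → E → E}

lemma rho_NE {D : Set E} (hr : ∀ n, NE D (r n)) (n : ℕ) : NE D (rho r n) := by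
  induction n with
  | zero => exact hr 0
  | succ n ih => exact (hr (n + 1)).comp ih

lemma F_anti (hF : ∀ n, F (n + 1) ⊆ F n) {m n : ℕ} (h : m ≤ n) : F n ⊆ F m := by
  induction n, h using Nat.le_induction with
  | base => exact Subset.rfl
  | succ n _ ih => exact (hF n).trans ih

lemma rho_fix (hr : ∀ n, Retr K (F n) (r n)) (hF : ∀ n, F (n + 1) ⊆ F n) {m n : ℕ} (h : m ≤ n)
    {x : E} (hx : x ∈ F n) : rho r m x = x := by
  induction m with
  | zero => exact (hr 0).fix x (F_anti hF h hx)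
  | succ m ih =>
    simp only [rho]
    rw [ih (by omega)]
    exact (hr (m + 1)).fix x (F_anti hF h hx)

lemma rho_mem (hr : ∀ n, Retr K (F n) (r n)) (n : ℕ) {x : E} (hx : x ∈ K) :
    rho r n x ∈ F n := by
  cases n with
  | zero => exact (hr 0).mem x hx
  | succ n => exact (hr (n + 1)).mem _ ((rho_NE (fun n => (hr n).toNE) n).maps x hx)

lemma rho_rho (hr : ∀ n, Retr K (F n) (r n)) (hF : ∀ n, F (n + 1) ⊆ F n) {m n : ℕ} (h : m ≤ n)
    {x : E} (hx : x ∈ K) : rho r n (rho r m x) = rho r n x := by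
  induction n, h using Nat.le_induction with
  | base => exact rho_fix hr hF le_rfl (rho_mem hr m hx)
  | succ n _ ih => simp only [rho]; rw [ih]

/-- Finite weighted averages. -/
noncomputable def avg (r : ℕ → E → E) (N : ℕ) (x : E) : E :=
  (∑ j ∈ Finset.range N, (1 / 2 : ℝ) ^ (j + 1) • rho r j x) + (1 / 2 : ℝ) ^ N • rho r N x

lemma geom_half (N : ℕ) : (∑ j ∈ Finset.range N, (1 / 2 : ℝ) ^ (j + 1)) + (1 / 2 : ℝ) ^ N = 1 := by
  induction N with
  | zero => simp
  | succ N ih =>
    rw [Finset.sum_range_succ]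
    have : (1 / 2 : ℝ) ^ (N + 1) + (1 / 2 : ℝ) ^ (N + 1) = (1 / 2 : ℝ) ^ N := by ring
    linarith

lemma avg_mem {D : Set E} (hD : Convex ℝ D) (hr : ∀ n, NE D (r n)) (N : ℕ) {x : E} (hx : x ∈ D) :
    avg r N x ∈ D := by
  have h1 : avg r N x = ∑ j ∈ Finset.range (N + 1),
      (if j = N then (1 / 2 : ℝ) ^ N else (1 / 2 : ℝ) ^ (j + 1)) • rho r j x := by
    rw [Finset.sum_range_succ, avg]
    simp only [if_true]
    congr 1
    apply Finset.sum_congr rfl
    intro j hj
    rw [if_neg (Finset.mem_range.1 hj).ne]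
  rw [h1]
  apply hD.sum_mem
  · intro j _
    split_ifs <;> positivity
  · rw [Finset.sum_range_succ]
    simp only [if_true]
    have : ∑ j ∈ Finset.range N, (if j = N then (1 / 2 : ℝ) ^ N else (1 / 2 : ℝ) ^ (j + 1)) =
        ∑ j ∈ Finset.range N, (1 / 2 : ℝ) ^ (j + 1) := by
      apply Finset.sum_congr rfl
      intro j hj
      rw [if_neg (Finset.mem_range.1 hj).ne]
    rw [this, geom_half]
  · intro j _
    exact (rho_NE hr j).maps x hx

lemma norm_avg_sub_le {D : Set E} (hr : ∀ n, NE D (r n)) (N : ℕ) {x y : E} (hx : x ∈ D)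
    (hy : y ∈ D) : ‖avg r N x - avg r N y‖ ≤ ‖x - y‖ := by
  have h1 : avg r N x - avg r N y =
      (∑ j ∈ Finset.range N, (1 / 2 : ℝ) ^ (j + 1) • (rho r j x - rho r j y)) +
        (1 / 2 : ℝ) ^ N • (rho r N x - rho r N y) := by
    simp only [avg, smul_sub, Finset.sum_sub_distrib]
    abel
  rw [h1]
  calc _ ≤ ‖∑ j ∈ Finset.range N, (1 / 2 : ℝ) ^ (j + 1) • (rho r j x - rho r j y)‖ +
        ‖(1 / 2 : ℝ) ^ N • (rho r N x - rho r N y)‖ := norm_add_le _ _
    _ ≤ (∑ j ∈ Finset.range N, (1 / 2 : ℝ) ^ (j + 1) * ‖x - y‖) +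
        (1 / 2 : ℝ) ^ N * ‖x - y‖ := by
      gcongr ?_ + ?_
      · refine (norm_sum_le _ _).trans (Finset.sum_le_sum fun j _ => ?_)
        rw [norm_smul, Real.norm_of_nonneg (by positivity)]
        gcongr
        exact (rho_NE hr j).ne x hx y hy
      · rw [norm_smul, Real.norm_of_nonneg (by positivity)]
        gcongr
        exact (rho_NE hr N).ne x hx y hy
    _ = ‖x - y‖ := by rw [← Finset.sum_mul, ← add_mul, geom_half, one_mul]

lemma norm_avg_sub_le' (N : ℕ) (x z : E) :
    ‖avg r N x - z‖ ≤ (∑ j ∈ Finset.range N, (1 / 2 : ℝ) ^ (j + 1) * ‖rho r j x - z‖) +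
      (1 / 2 : ℝ) ^ N * ‖rho r N x - z‖ := by
  have h1 : avg r N x - z =
      (∑ j ∈ Finset.range N, (1 / 2 : ℝ) ^ (j + 1) • (rho r j x - z)) +
        (1 / 2 : ℝ) ^ N • (rho r N x - z) := by
    have h2 : z = (∑ j ∈ Finset.range N, (1 / 2 : ℝ) ^ (j + 1) • z) + (1 / 2 : ℝ) ^ N • z := by
      rw [← Finset.sum_smul, ← add_smul, geom_half, one_smul]
    simp only [avg, smul_sub, Finset.sum_sub_distrib]
    nth_rewrite 1 [h2]
    abel
  rw [h1]
  refine (norm_add_le _ _).trans ?_
  gcongr ?_ + ?_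
  · refine (norm_sum_le _ _).trans (Finset.sum_le_sum fun j _ => ?_)
    rw [norm_smul, Real.norm_of_nonneg (by positivity)]
  · rw [norm_smul, Real.norm_of_nonneg (by positivity)]

end

/-- A nonempty weakly compact convex set invariant under retractions onto the members of a
decreasing sequence of retracts meets their intersection. -/
theorem exists_common_seq [CompleteSpace E] (hE : WFPP E) {K : Set E} {F : ℕ → Set E}
    {r : ℕ → E → E} (hr : ∀ n, Retr K (F n) (r n)) (hF : ∀ n, F (n + 1) ⊆ F n) {D : Set E}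
    (hDK : D ⊆ K) (hDw : WeaklyCompact D) (hDne : D.Nonempty) (hDconv : Convex ℝ D)
    (hinv : ∀ n, ∀ x ∈ D, r n x ∈ D) : ∃ q ∈ D, ∀ n, q ∈ F n := by
  have hrD : ∀ n, NE D (r n) := fun n => (hr n).toNE.mono hDK (hinv n)
  have hbdd := hDw.isBounded
  obtain ⟨B, hB0, hB⟩ : ∃ B : ℝ, 0 ≤ B ∧ ∀ x ∈ D, ‖x‖ ≤ B := by
    obtain ⟨B, hB⟩ := hbdd.exists_norm_le
    exact ⟨max B 0, le_max_right _ _, fun x hx => (hB x hx).trans (le_max_left _ _)⟩
  -- the limit map
  have hlim : ∀ x ∈ D, ∃ y, Tendsto (fun N => avg r N x) atTop (𝓝 y) := by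
    intro x hx
    have hs : Summable fun j : ℕ => (1 / 2 : ℝ) ^ (j + 1) • rho r j x := by
      apply Summable.of_norm_bounded (g := fun j : ℕ => (1 / 2 : ℝ) ^ j * B)
      · exact (summable_geometric_of_lt_one (by norm_num) (by norm_num)).mul_right B
      · intro j
        rw [norm_smul, Real.norm_of_nonneg (by positivity)]
        have h1 : ‖rho r j x‖ ≤ B := hB _ ((rho_NE hrD j).maps x hx)
        have h2 : (1 / 2 : ℝ) ^ (j + 1) ≤ (1 / 2 : ℝ) ^ j :=
          pow_le_pow_of_le_one (by norm_num) (by norm_num) (Nat.le_succ j)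
        gcongr
    refine ⟨(∑' j : ℕ, (1 / 2 : ℝ) ^ (j + 1) • rho r j x) + 0, ?_⟩
    refine Tendsto.add hs.hasSum.tendsto_sum_nat ?_
    apply squeeze_zero_norm (a := fun N : ℕ => (1 / 2 : ℝ) ^ N * B)
    · intro N
      rw [norm_smul, Real.norm_of_nonneg (by positivity)]
      gcongr
      exact hB _ ((rho_NE hrD N).maps x hx)
    · have := (tendsto_pow_atTop_nhds_zero_of_lt_one (r := (1 / 2 : ℝ)) (by norm_num)
        (by norm_num)).mul_const B
      simpa using this
  choose! T hT using hlim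
  have hTNE : NE D T := by
    constructor
    · intro x hx
      exact hDw.isClosed.mem_of_tendsto (hT x hx)
        (Eventually.of_forall fun N => avg_mem hDconv hrD N hx)
    · intro x hx y hy
      refine le_of_tendsto ((hT x hx).sub (hT y hy)).norm (Eventually.of_forall fun N => ?_)
      exact norm_avg_sub_le hrD N hx hy
  obtain ⟨q, hqD, hq⟩ := hE D hDw hDne hDconv T hTNE
  have hqK := hDK hqD
  refine ⟨q, hqD, ?_⟩
  set a : ℕ → ℝ := fun k => ‖q - rho r k q‖ with ha
  -- distances between the images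
  have hd1 : ∀ j k, j ≤ k → ‖rho r j q - rho r k q‖ ≤ a k := by
    intro j k hjk
    have h1 : rho r j (rho r k q) = rho r k q := rho_fix hr hF hjk (rho_mem hr k hqK)
    have hN : NE K (rho r j) := rho_NE (fun n => (hr n).toNE) j
    calc ‖rho r j q - rho r k q‖ = ‖rho r j q - rho r j (rho r k q)‖ := by rw [h1]
      _ ≤ ‖q - rho r k q‖ := hN.ne q hqK _ (hDK ((rho_NE hrD k).maps q hqD))
  have hd2 : ∀ j k, k ≤ j → ‖rho r j q - rho r k q‖ ≤ a j := by
    intro j k hjk
    rw [norm_sub_rev]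
    exact hd1 k j hjk
  have habd : BddAbove (range a) := by
    refine ⟨B + B, ?_⟩
    rintro _ ⟨k, rfl⟩
    exact (norm_sub_le _ _).trans (add_le_add (hB q hqD) (hB _ ((rho_NE hrD k).maps q hqD)))
  set M : ℝ := ⨆ k, a k with hM
  have haM : ∀ k, a k ≤ M := fun k => le_ciSup habd k
  have hM0 : 0 ≤ M := (norm_nonneg _).trans (haM 0)
  have hkey : ∀ k, a k ≤ M / 2 := by
    intro k
    have h1 : Tendsto (fun N => ‖avg r N q - rho r k q‖) atTop (𝓝 (a k)) := by
      have := (hT q hqD).sub_const (rho r k q)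
      rw [hq] at this
      exact this.norm
    have h2 : ∀ᶠ N in atTop, ‖avg r N q - rho r k q‖ ≤
        (1 - (1 / 2 : ℝ) ^ k) * a k + (1 / 2 : ℝ) ^ (k + 1) * M := by
      filter_upwards [eventually_ge_atTop (k + 1)] with N hN
      refine (norm_avg_sub_le' N q _).trans ?_
      obtain ⟨m, rfl⟩ := Nat.exists_eq_add_of_le hN
      rw [Finset.sum_range_add, Finset.sum_range_succ]
      have e1 : ∑ j ∈ Finset.range k, (1 / 2 : ℝ) ^ (j + 1) * ‖rho r j q - rho r k q‖ ≤
          (1 - (1 / 2 : ℝ) ^ k) * a k := by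
        calc _ ≤ ∑ j ∈ Finset.range k, (1 / 2 : ℝ) ^ (j + 1) * a k := by
              refine Finset.sum_le_sum fun j hj => ?_
              gcongr
              exact hd1 j k (Finset.mem_range.1 hj).le
          _ = _ := by
              rw [← Finset.sum_mul]
              congr 1
              have := geom_half k
              linarith
      have e2 : (1 / 2 : ℝ) ^ (k + 1) * ‖rho r k q - rho r k q‖ = 0 := by simp
      have e3 : ∑ j ∈ Finset.range m, (1 / 2 : ℝ) ^ (k + 1 + j + 1) *
            ‖rho r (k + 1 + j) q - rho r k q‖ +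
          (1 / 2 : ℝ) ^ (k + 1 + m) * ‖rho r (k + 1 + m) q - rho r k q‖ ≤
          (1 / 2 : ℝ) ^ (k + 1) * M := by
        calc _ ≤ ∑ j ∈ Finset.range m, (1 / 2 : ℝ) ^ (k + 1 + j + 1) * M +
              (1 / 2 : ℝ) ^ (k + 1 + m) * M := by
              gcongr ?_ + ?_
              · refine Finset.sum_le_sum fun j hj => ?_
                gcongr
                exact (hd2 _ _ (by omega)).trans (haM _)
              · gcongr
                exact (hd2 _ _ (by omega)).trans (haM _)
          _ = (1 / 2 : ℝ) ^ (k + 1) * M *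
              ((∑ j ∈ Finset.range m, (1 / 2 : ℝ) ^ (j + 1)) + (1 / 2 : ℝ) ^ m) := by
              rw [mul_add, Finset.mul_sum]
              congr 1
              · refine Finset.sum_congr rfl fun j _ => ?_
                ring
              · ring
          _ = _ := by rw [geom_half, mul_one]
      linarith
    have h3 := le_of_tendsto h1 h2
    have h4 : (1 / 2 : ℝ) ^ k * a k ≤ (1 / 2 : ℝ) ^ (k + 1) * M := by linarith
    have h5 : (0 : ℝ) < (1 / 2 : ℝ) ^ k := by positivity
    rw [pow_succ, mul_assoc] at h4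
    have := le_of_mul_le_mul_left h4 h5
    linarith
  have hMle : M ≤ M / 2 := ciSup_le hkey
  have hM00 : M = 0 := by linarith
  intro n
  have h1 : a n = 0 := le_antisymm ((haM n).trans hM00.le) (norm_nonneg _)
  have h2 : q = rho r n q := by rwa [ha, norm_eq_zero, sub_eq_zero] at h1
  rw [h2]
  exact rho_mem hr n hqK

end Pool.Agent.Bruck
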